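import Pool.Agent.Q103.EC.Hyp

/-!
# Hyperbolicity does not depend on the field of the coordinates
-/

set_option autoImplicit false

namespace Pool.Agent.J6H55.MF

open FF Polynomial Metric
open Pool.Agent.W602.GT
open Pool.Agent.TH466.QG (SubOf)
open Pool.Agent.Y221.BD (EntireCurve)
open Pool.Agent.Y221.PD (MeroMap EssentialDisc TorusCurve)
open Pool.Agent.Y216 (OnVar)
open Pool.Agent.W602.RG (PointedMaps)
open Pool.Agent.Q103.KO (IsPoint SameP Chain Disc)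
open Pool.Agent.Q103.EC (HypOff)

variable {M : ℕ} {K L : Type} [Field K] [Algebra ℂ K] [Field L] [Algebra ℂ L]
  {x : Fin (M + 1) → K} {x' : Fin (M + 1) → L}

theorem chain_congr (h : ∀ G : MvPolynomial (Fin (M + 1)) ℂ, IsForm G → val x G = 0 → val x' G = 0)
    {a b : Fin (M + 1) → ℂ} {l : ℝ} (hc : Chain x' a b l) : Chain x a b l := by
  induction hc with
  | nil a b hab => exact Chain.nil a b hab
  | cons a b g s t l hg hs ht hab _ ih =>
    exact Chain.cons a b g s t l ⟨hg.hol, hg.ne, fun G hG hx => hg.mem G hG (h G hG hx)⟩ hs ht hab ih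

theorem hypOff_congr
    (h : ∀ G : MvPolynomial (Fin (M + 1)) ℂ, IsForm G → (val x G = 0 ↔ val x' G = 0))
    {R : MvPolynomial (Fin (M + 1)) ℂ} (hR : HypOff x R) : HypOff x' R := by
  refine ⟨hR.form, ?_, ?_, ?_, ?_, ?_, ?_, ?_, ?_, ?_⟩
  · intro h0
    exact hR.ne ((h R hR.form).2 h0)
  · intro E _ _ w z hz hzR hw htr
    exact hR.sub E w z ⟨hz.ne, hz.gen, fun G hG hx => hz.spec G hG ((h G hG).1 hx)⟩ hzR hw htr
  · intro f hf
    exact hR.disc f ⟨hf.hol, hf.ne, fun G hG hx => hf.mem G hG ((h G hG).1 hx), hf.ess⟩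
  · intro f hf
    exact hR.curve f ⟨hf.hol, hf.ne, fun G hG hx => hf.mem G hG ((h G hG).1 hx), hf.nonconst⟩
  · intro g f hf
    exact hR.mero g f ⟨hf.hol, fun G hG hx => hf.mem G hG ((h G hG).1 hx), hf.nonconst⟩
  · intro f hf
    exact hR.torus f ⟨hf.ne, fun G hG hx => hf.mem G hG ((h G hG).1 hx), hf.nonconst⟩
  · intro E _ _ _ c a ha haR
    have h1 := hR.pointed E c a ⟨ha.1, fun G hG hx => ha.2 G hG ((h G hG).1 hx)⟩ haR
    refine h1.subset ?_
    rintro φ ⟨f, hf, hmem, hv, rfl⟩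
    exact ⟨f, hf, fun G hG hx => hmem G hG ((h G hG).1 hx), hv, rfl⟩
  · obtain ⟨A, hA⟩ := hR.degree
    exact ⟨A, fun E _ _ _ f hf hfR =>
      hA E f ⟨hf.1, fun G hG hx => hf.2 G hG ((h G hG).1 hx)⟩ hfR⟩
  · intro a b ha hb hab hR'
    obtain ⟨ε, hε, hl⟩ := hR.kobayashi a b
      ⟨ha.1, fun G hG hx => ha.2 G hG ((h G hG).1 hx)⟩
      ⟨hb.1, fun G hG hx => hb.2 G hG ((h G hG).1 hx)⟩ hab hR'
    exact ⟨ε, hε, fun l hc => hl l (chain_congr (fun G hG hx => (h G hG).1 hx) hc)⟩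

end Pool.Agent.J6H55.MF
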