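import Pool.Agent.Q103.VR.Def
import Pool.Agent.Q103.RP.Hyp

/-!
# The joint moduli fibration: definitions
-/

set_option autoImplicit false

namespace Pool.Agent.J6H55.MF

open FF Polynomial Metric
open Pool.Agent.W602.GT (IsForm val coords GeneralType)
open Pool.Agent.TH466.QG (SubOf)
open Pool.Agent.Y221.BD (EntireCurve)
open Pool.Agent.Y221.PD (MeroMap)
open Pool.Agent.Y216 (OnVar)
open Pool.Agent.W603.LV (canDeg)
open Pool.Agent.W603.PV (pht)
open Pool.Agent.Q103.KO (IsPoint SameP Chain)
open Pool.Agent.Q103.RP (cfv IsPt)
open Pool.Agent.Q103.VR (DefinedOver)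

/-- Let `K` be the function field of the variety `X` over `k`, `f_j = p j / q j`, `j` in `J`, rational maps over
`K` of degrees `d j`. The field `E` between `k` and `K` is the function field of the base `Y` of the
**joint moduli fibration** `X ⇢ Y`. -/
structure JointModuli {k K : Type} [Field k] [Field K] [Algebra k K] {J : Type} (d : J → ℕ)
    (p q : J → K[X]) (E : IntermediateField k K) : Prop where
  /-- the general fibres of `X ⇢ Y` are irreducible -/
  closed : ∀ y : K, IsAlgebraic E y → y ∈ E
  /-- all the maps are defined over `E` up to conjugation -/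
  defined : ∀ j, DefinedOver (d j) (p j) (q j) E
  /-- `E` is algebraic over every field over which all the maps are defined up to conjugation -/
  least : ∀ F : IntermediateField k K, (∀ j, DefinedOver (d j) (p j) (q j) F) →
    ∀ y ∈ E, IsAlgebraic F y

/-- The forms `g` define a rational map `X ⇢ Y` on the projective variety `X` with the generic point `x`.
Off the proper closed subset `Z = {R = 0}` of `X` it contracts what is not of general type. -/
structure RelOff {M N : ℕ} {L : Type} [Field L] [Algebra ℂ L] (x : Fin (M + 1) → L)
    (g : Fin (N + 1) → MvPolynomial (Fin (M + 1)) ℂ) (R : MvPolynomial (Fin (M + 1)) ℂ) :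
    Prop where
  form : IsForm R
  ne : val x R ≠ 0
  /-- the rational map is defined at the points which are not in `Z` -/
  dom : ∀ (E : Type) [Field E] [Algebra ℂ E] (z : Fin (M + 1) → E),
    (∀ G : MvPolynomial (Fin (M + 1)) ℂ, IsForm G → val x G = 0 → val z G = 0) →
    val z R ≠ 0 → ∃ i, val z (g i) ≠ 0
  /-- the images of the closed subvarieties which are not contained in `Z` are points or of general
  type -/
  sub : ∀ (E : Type) [Field E] [Algebra ℂ E] (v : ℕ) (z : Fin (M + 1) → E), SubOf ℂ x z →
    val z R ≠ 0 → 1 ≤ v → Algebra.trdeg ℂ (coords ℂ fun i => val z (g i)) = v →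
    GeneralType ℂ (coords ℂ fun i => val z (g i)) v
  /-- the rational map is constant on the entire curves which are not contained in `Z` -/
  curve : ∀ f, EntireCurve x f → (∃ t, MvPolynomial.eval (fun i => f i t) R ≠ 0) →
    ∀ i j s t, MvPolynomial.eval (fun l => f l s) (g i) * MvPolynomial.eval (fun l => f l t) (g j) =
      MvPolynomial.eval (fun l => f l s) (g j) * MvPolynomial.eval (fun l => f l t) (g i)
  /-- the rational map is constant on the meromorphic images of the spaces `ℂ ^ m` which are not
  contained in `Z` -/
  mero : ∀ m h, MeroMap x m h → (∃ t, MvPolynomial.eval (fun i => h i t) R ≠ 0) →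
    ∀ i j s t, MvPolynomial.eval (fun l => h l s) (g i) * MvPolynomial.eval (fun l => h l t) (g j) =
      MvPolynomial.eval (fun l => h l s) (g j) * MvPolynomial.eval (fun l => h l t) (g i)
  /-- the degree of the image in `Y` of a curve of genus `c` in `X` which is not contained in `Z` is at most
  `A * max (2 * c - 2) 0` -/
  degree : ∃ A : ℕ, ∀ (E : Type) [Field E] [Algebra ℂ E] [IsFF ℂ E] (f : Fin (M + 1) → E),
    OnVar ℂ x f → val f R ≠ 0 → pht ℂ (fun i => val f (g i)) ≤ A * max (canDeg ℂ E) 0
  /-- if the rational map is a morphism then the Kobayashi pseudodistance in `X` of two points with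
  different images, which are not both in `Z`, is positive -/
  kobayashi : (∀ a, IsPoint x a → ∃ i, MvPolynomial.eval a (g i) ≠ 0) →
    ∀ a b : Fin (M + 1) → ℂ, IsPoint x a → IsPoint x b →
      ¬ SameP (fun i => MvPolynomial.eval a (g i)) (fun i => MvPolynomial.eval b (g i)) →
      (MvPolynomial.eval a R ≠ 0 ∨ MvPolynomial.eval b R ≠ 0) →
      ∃ ε : ℝ, 0 < ε ∧ ∀ l : ℝ, Chain x a b l → ε ≤ l

/-- `y` is the generic point of a projective variety `Y` over `k` with the function field `E`, a subfield of
the function field `K` of the projective variety `X` with the generic point `x`, and the forms `g` (of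
degree `e`) define the dominant rational map `X ⇢ Y` which corresponds to the inclusion. -/
structure IsModel {k K : Type} [Field k] [Field K] [Algebra k K] {M N : ℕ} (x : Fin (M + 1) → K)
    {E : IntermediateField k K} (e : ℕ) (y : Fin (N + 1) → E)
    (g : Fin (N + 1) → MvPolynomial (Fin (M + 1)) k) (τ : K) : Prop where
  ne : y ≠ 0
  gen : coords k y = ⊤
  hom : ∀ i, (g i).IsHomogeneous e
  ne' : τ ≠ 0
  val : ∀ i, val x (g i) = τ * (y i : K)

/-- The coefficients of the map `p / q` of degree `d` over `K` are, up to the common factor `t`, the values at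
`x` of the forms `F s` of degree `κ`. -/
structure IsCoef {k K : Type} [Field k] [Field K] [Algebra k K] {M : ℕ} (x : Fin (M + 1) → K)
    (d : ℕ) (p q : K[X]) (κ : ℕ) (F : Fin 2 × Fin (d + 1) → MvPolynomial (Fin (M + 1)) k)
    (t : K) : Prop where
  hom : ∀ s, (F s).IsHomogeneous κ
  ne : t ≠ 0
  val : ∀ s, cfv d p q s = t * val x (F s)

/-- The images of the points `a` of the projective variety over `k` with the generic point `x`, over number
fields `L` of degree at most `D` which contain `k`, of absolute height at most `T`, not on the complex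
hypersurface `R = 0`, under the rational map `a ↦ (g₀(a) : g₁(a) : …)`, as points of the complex projective
space, by all embeddings of `L` in the complex numbers over `k`. -/
def imgPts (k : Type) [Field k] [Algebra k ℂ] {K : Type} [Field K] [Algebra k K] {M N : ℕ}
    (x : Fin (M + 1) → K) (R : MvPolynomial (Fin (M + 1)) ℂ)
    (g : Fin (N + 1) → MvPolynomial (Fin (M + 1)) k) (D : ℕ) (T : ℝ) :
    Set (Submodule ℂ (Fin (N + 1) → ℂ)) :=
  {P | ∃ (L : Type) (_ : Field L) (_ : NumberField L) (_ : Algebra k L) (σ : L →ₐ[k] ℂ)
    (a : Fin (M + 1) → L), Module.finrank ℚ L ≤ D ∧ IsPt (k := k) x a ∧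
      MvPolynomial.eval (fun i => σ (a i)) R ≠ 0 ∧
      Height.mulHeight a ≤ T ^ Module.finrank ℚ L ∧
      P = Submodule.span ℂ {fun i => σ (val a (g i))}}

end Pool.Agent.J6H55.MF
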