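import Pool.Agent.J6H55.MF.Fg
import Pool.Agent.J6H55.JM.Sdat
import Pool.Agent.Q53.EC.Var
import Pool.Agent.Q103.VR.Stm
import Pool.Agent.J6H55.MF.Defs

/-!
# The joint moduli fibration of several maps
-/

set_option autoImplicit false

namespace Pool.Agent.J6H55.MF

open Polynomial
open Pool.Agent.W602.GT
open Pool.Agent.Q41.SU (Stab)
open Pool.Agent.Q41.GT (crs)
open Pool.Agent.Q103.EC (ManyPrep prePer exists_stab)
open Pool.Agent.Q103.VR (DefinedOver ModuliFibration exists_moduli)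
open Pool.Agent.J6H55.JM (SDat alg_up elt_mono elt_trans crs_image stab_image)

section model

variable {k K : Type} [Field k] [Field K] [Algebra k K] {M : ℕ} {x : Fin (M + 1) → K}

theorem ess_of_coords (hx : x ≠ 0) (hgen : coords k x = ⊤) : Algebra.EssFiniteType k K := by
  classical
  obtain ⟨i1, hi1'⟩ := Function.ne_iff.1 hx
  have hi1 : x i1 ≠ 0 := hi1'
  have hu := Pool.Agent.TH466.QG.adjoin_norm hgen hi1
  rw [← IntermediateField.fg_top_iff]
  exact ⟨Finset.univ.image fun i => x i / x i1, by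
    rw [Finset.coe_image, Finset.coe_univ, Set.image_univ]
    exact hu⟩

/-- an affine model of a subfield, in homogeneous coordinates -/
theorem exists_model' (hx : x ≠ 0) (hgen : coords k x = ⊤) (E : IntermediateField k K)
    [Algebra.EssFiniteType k E] :
    ∃ (N κ : ℕ) (y : Fin (N + 1) → E) (g : Fin (N + 1) → MvPolynomial (Fin (M + 1)) k) (τ : K),
      y 0 = 1 ∧ IntermediateField.adjoin k (Set.range y) = ⊤ ∧ (∀ i, (g i).IsHomogeneous κ) ∧
      τ ≠ 0 ∧ ∀ i, val x (g i) = τ * (y i : K) := by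
  classical
  obtain ⟨N, y, hy0, hy⟩ := exists_gens (k := k) (E := E)
  obtain ⟨i1, hi1'⟩ := Function.ne_iff.1 hx
  have hi1 : x i1 ≠ 0 := hi1'
  have hu := Pool.Agent.TH466.QG.adjoin_norm hgen hi1
  obtain ⟨H0, hH0, hG⟩ := Pool.Agent.TH466.QG.exists_den hu
    (Set.finite_range fun i => (y i : K))
  have hG' : ∀ i, ∃ G : MvPolynomial (Fin (M + 1)) k,
      (y i : K) * MvPolynomial.aeval (fun i => x i / x i1) H0 =
        MvPolynomial.aeval (fun i => x i / x i1) G := fun i => hG (y i : K) ⟨i, rfl⟩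
  choose G hGc using hG'
  set e := ∑ i, (G i).totalDegree with he
  have hle : ∀ i, (G i).totalDegree ≤ e := fun i =>
    Finset.single_le_sum (f := fun i => (G i).totalDegree) (fun _ _ => Nat.zero_le _)
      (Finset.mem_univ i)
  refine ⟨N, e, y, fun i => Pool.Agent.Q53.EC.hze i1 e (G i),
    x i1 ^ e * MvPolynomial.aeval (fun i => x i / x i1) H0, hy0, hy,
    fun i => Pool.Agent.Q53.EC.hze_hom i1 e _ (hle i), mul_ne_zero (pow_ne_zero _ hi1) hH0,
    fun i => ?_⟩
  rw [Pool.Agent.Q53.EC.val_hze e _ (hle i) hi1, ← hGc i]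
  ring

/-- a projective model of a subfield -/
theorem exists_model (hx : x ≠ 0) (hgen : coords k x = ⊤) (E : IntermediateField k K)
    [Algebra.EssFiniteType k E] :
    ∃ (N κ : ℕ) (y : Fin (N + 1) → E) (g : Fin (N + 1) → MvPolynomial (Fin (M + 1)) k) (τ : K),
      y ≠ 0 ∧ coords k y = ⊤ ∧ (∀ i, (g i).IsHomogeneous κ) ∧ τ ≠ 0 ∧
      ∀ i, val x (g i) = τ * (y i : K) := by
  obtain ⟨N, κ, y, g, τ, hy0, hy, hg, hτ, hgy⟩ := exists_model' hx hgen E
  refine ⟨N, κ, y, g, τ, ?_, ?_, hg, hτ, hgy⟩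
  · intro h0
    rw [h0] at hy0
    exact zero_ne_one hy0
  · rw [eq_top_iff, ← hy, IntermediateField.adjoin_le_iff]
    rintro _ ⟨i, rfl⟩
    refine IntermediateField.subset_adjoin k _ ⟨i, 0, ?_, ?_⟩
    · rw [hy0]
      exact one_ne_zero
    · rw [hy0, div_one]

end model

section up

variable {k k' L₀ L : Type} [Field k] [Field k'] [Field L₀] [Field L] [Algebra k L₀] [Algebra L₀ L]
  [Algebra k k'] [Algebra k' L] [Algebra k L] [IsScalarTower k L₀ L] [IsScalarTower k k' L]

/-- extension of the constants -/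
theorem sdat_up [DecidableEq L] {d : ℕ} {p q : L₀[X]} {P : Finset L₀} (h : SDat k d p q P)
    (htop : IntermediateField.adjoin k' (Set.range (algebraMap L₀ L)) = ⊤) :
    SDat k' d (p.map (algebraMap L₀ L)) (q.map (algebraMap L₀ L))
      (P.image (algebraMap L₀ L)) := by
  refine ⟨?_, ?_, h.coprime.map (mapRingHom (algebraMap L₀ L)), stab_image h.stab, ?_, ?_⟩
  · rw [natDegree_map]
    exact h.deg_p
  · rw [natDegree_map]
    exact h.deg_q
  · refine ⟨fun y => elt_trans (S := Set.range (algebraMap L₀ L)) ?_ ?_⟩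
    · rintro _ ⟨y, rfl⟩
      exact alg_up (k := k) (k' := k') (crs_image P) (h.alg.isAlgebraic y)
    · rw [htop]
      exact isAlgebraic_algebraMap (⟨y, IntermediateField.mem_top⟩ : (⊤ : IntermediateField k' L))
  · obtain ⟨m, u, hu⟩ := h.fg
    refine ⟨m, fun i => algebraMap L₀ L (u i), ?_⟩
    set F' := IntermediateField.adjoin k' (Set.range fun i => algebraMap L₀ L (u i)) with hF'
    have hk : ∀ c : k, algebraMap L₀ L (algebraMap k L₀ c) ∈ F' := by
      intro c
      rw [← IsScalarTower.algebraMap_apply k L₀ L, IsScalarTower.algebraMap_apply k k' L]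
      exact F'.algebraMap_mem _
    let F0 : IntermediateField k L₀ :=
      { F'.toSubfield.comap (algebraMap L₀ L) with
        algebraMap_mem' := fun c => hk c }
    have hle : IntermediateField.adjoin k (Set.range u) ≤ F0 := by
      rw [IntermediateField.adjoin_le_iff]
      rintro _ ⟨i, rfl⟩
      exact IntermediateField.subset_adjoin k' _ ⟨i, rfl⟩
    rw [eq_top_iff, ← htop, IntermediateField.adjoin_le_iff]
    rintro _ ⟨y, rfl⟩
    exact hle (by rw [hu]; exact IntermediateField.mem_top)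

end up

section joint

variable {k K : Type} [Field k] [Field K] [Algebra k K]

theorem elt_mono' {A : Type} [Field A] [Algebra K A] {F F' : IntermediateField k K} (h : F ≤ F')
    {a : A} (ha : IsAlgebraic F a) : IsAlgebraic F' a := by
  obtain ⟨p, hp, hpa⟩ := ha
  refine ⟨p.map (IntermediateField.inclusion h).toRingHom, ?_, ?_⟩
  · rw [Ne, Polynomial.map_eq_zero]
    exact hp
  · rw [Polynomial.aeval_def, Polynomial.eval₂_map]
    exact hpa

theorem definedOver_mono {d : ℕ} {p q : K[X]} {F F' : IntermediateField k K} (h : F ≤ F')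
    (hF : DefinedOver d p q F) : DefinedOver d p q F' := by
  obtain ⟨p', q', a, b, c, e, h1, h2, h3, h4, h5⟩ := hF
  exact ⟨p', q', a, b, c, e, h1, h2, h3, fun i => ⟨elt_mono' h (h4 i).1, elt_mono' h (h4 i).2⟩, h5⟩

/-- **The joint moduli fibration exists.** -/
theorem exists_joint [CharZero k] {J : Type} {d : J → ℕ} {p q : J → K[X]} {n : J → ℕ}
    (hd : ∀ j, 2 ≤ d j) (hn : ∀ j, 3 * d j + 7 ≤ n j) (hco : ∀ j, IsCoprime (p j) (q j))
    (hmax : ∀ j, max (p j).natDegree (q j).natDegree = d j)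
    (hmany : ∀ j, (n j : ℕ∞) ≤ (prePer (d j) (p j) (q j)).encard)
    (hfg : ∀ E : IntermediateField k K,
      ∃ (m : ℕ) (u : Fin m → E), IntermediateField.adjoin k (Set.range u) = ⊤) :
    ∃ (E : IntermediateField k K) (E₁ : J → IntermediateField k K), JointModuli d p q E ∧
      (∀ j, E₁ j ≤ E) ∧ (∀ j, ModuliFibration (d j) (p j) (q j) (E₁ j)) ∧
      (∀ y ∈ E, IsAlgebraic (IntermediateField.adjoin k (⋃ j, (E₁ j : Set K))) y) ∧
      ∀ j, ∃ (p' q' : (E₁ j)[X]) (P : Finset (E₁ j)), SDat k (d j) p' q' P ∧ n j ≤ P.card := by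
  classical
  have h1 : ∀ j, ∃ E : IntermediateField k K, ModuliFibration (d j) (p j) (q j) E ∧
      ∃ (p' q' : E[X]) (P : Finset E), SDat k (d j) p' q' P ∧ n j ≤ P.card := by
    intro j
    obtain ⟨E, hE, p', q', hmp⟩ := exists_moduli (k := k) (hd j) (by have := hn j; omega) (hco j)
      (hmax j) (hmany j)
    obtain ⟨p2, q2, P2, hp2, hq2, hpq2, hst, hc, halg2⟩ := exists_stab (hd j) (hn j) hmp
    exact ⟨E, hE, p2, q2, P2, ⟨hp2, hq2, hpq2, hst, halg2, hfg E⟩, hc⟩
  choose E₁ hE₁ hdat using h1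
  set S : Set K := ⋃ j, (E₁ j : Set K) with hS
  set L₀ := IntermediateField.adjoin k S with hL₀
  set E : IntermediateField k K := (algebraicClosure L₀ K).restrictScalars k with hE
  have hmem : ∀ y : K, y ∈ E ↔ IsAlgebraic L₀ y := fun y => mem_algebraicClosure_iff
  have hle : ∀ j, E₁ j ≤ E := by
    intro j y hy
    rw [hmem]
    exact isAlgebraic_algebraMap
      (⟨y, IntermediateField.subset_adjoin k S (Set.mem_iUnion.2 ⟨j, hy⟩)⟩ : L₀)
  refine ⟨E, E₁, ⟨?_, fun j => definedOver_mono (hle j) (hE₁ j).defined, ?_⟩, hle, hE₁,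
    fun y hy => (hmem y).1 hy, hdat⟩
  · intro y hy
    rw [hmem]
    have h3 : IsAlgebraic (algebraicClosure L₀ K) y := hy
    have : Algebra.IsAlgebraic L₀ (algebraicClosure L₀ K) := inferInstance
    exact h3.restrictScalars L₀
  · intro F hF y hy
    refine elt_trans (S := S) ?_ ((hmem y).1 hy)
    intro c hc
    obtain ⟨j, hj⟩ := Set.mem_iUnion.1 hc
    exact (hE₁ j).least F (hF j) c hj

end joint

end Pool.Agent.J6H55.MF
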