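import Mathlib
import Pool.Agent.Helper952_Quasi.FieldFin

/-!
# Subfields of finitely generated fields
-/

set_option autoImplicit false

namespace Pool.Agent.J6H55.MF

open IntermediateField

/-- A field between `k` and a finitely generated extension `K`, of finite transcendence degree, is
finitely generated. -/
theorem fg_sub {k K : Type} [Field k] [Field K] [Algebra k K] [Algebra.EssFiniteType k K]
    (E : IntermediateField k K) {v : ℕ} (hv : Algebra.trdeg k E = v) :
    Algebra.EssFiniteType k E := by
  obtain ⟨s, hs⟩ := exists_isTranscendenceBasis k E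
  have hfin : s.Finite := by
    have h1 := hs.cardinalMk_eq_trdeg
    rw [hv] at h1
    exact Cardinal.mk_lt_aleph0_iff.1 (h1.trans_lt (Cardinal.natCast_lt_aleph0))
  have halg : Algebra.IsAlgebraic (adjoin k s) E := by
    have := hs.isAlgebraic_field
    rwa [Subtype.range_coe] at this
  have h1 : Algebra.EssFiniteType (adjoin k s) K := Algebra.EssFiniteType.of_comp k _ _
  have h2 : FiniteDimensional (adjoin k s) (algebraicClosure (adjoin k s) K) :=
    Helper952Quasi.ff_finite
  let φ : E →ₗ[adjoin k s] (algebraicClosure (adjoin k s) K) :=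
    { toFun := fun y => ⟨algebraMap E K y, mem_algebraicClosure_iff.2
        ((halg.isAlgebraic y).algebraMap)⟩
      map_add' := fun a b => Subtype.ext (map_add _ _ _)
      map_smul' := fun c a => by
        apply Subtype.ext
        show algebraMap E K (c • a) = c • algebraMap E K a
        rw [Algebra.smul_def, map_mul, Algebra.smul_def]
        rfl }
  have hφ : Function.Injective φ := by
    intro a b hab
    have h := congrArg (fun z : algebraicClosure (adjoin k s) K => (z : K)) hab
    exact (algebraMap E K).injective h
  have h3 : Module.Finite (adjoin k s) E := Module.Finite.of_injective φ hφ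
  have h4 : Algebra.EssFiniteType k (adjoin k s) := by
    rw [essFiniteType_iff]
    exact ⟨hfin.toFinset, by rw [Set.Finite.coe_toFinset]⟩
  exact Algebra.EssFiniteType.comp k (adjoin k s) E

/-- finitely many generators -/
theorem exists_gens {k E : Type} [Field k] [Field E] [Algebra k E] [Algebra.EssFiniteType k E] :
    ∃ (N : ℕ) (y : Fin (N + 1) → E), y 0 = 1 ∧ adjoin k (Set.range y) = ⊤ := by
  classical
  obtain ⟨S, hS⟩ := IntermediateField.fg_top (F := k) (E := E)
  refine ⟨S.card, Fin.cons 1 fun i => (S.equivFin.symm i : E), rfl, ?_⟩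
  rw [eq_top_iff, ← hS, adjoin_le_iff]
  intro c hc
  refine subset_adjoin k _ ⟨(S.equivFin ⟨c, hc⟩).succ, ?_⟩
  rw [Fin.cons_succ, Equiv.symm_apply_apply]

end Pool.Agent.J6H55.MF
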