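import Pool.Agent.Q103.RP.Main

/-!
# Counting the values of a rational map with the values of several others
-/

set_option autoImplicit false

namespace Pool.Agent.J6H55.MF

open Polynomial
open Pool.Agent.W602.GT (IsForm val coords val_smul)
open Pool.Agent.Q103.RP

section ratio

variable {k K L : Type} [Field k] [Field K] [Algebra k K] [Field L] [Algebra k L] {M : ℕ}

/-- the values of a quotient of two forms -/
theorem phi_ratio {x : Fin (M + 1) → K} {j0 : Fin (M + 1)} (hj0 : x j0 ≠ 0) {T : Subalgebra k K}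
    (hxT : ∀ i, x i / x j0 ∈ T) {a : Fin (M + 1) → L} (ha : a j0 ≠ 0) (φ : T →ₐ[k] L)
    (hφ : ∀ (i : Fin (M + 1)) (h : x i / x j0 ∈ T), φ ⟨_, h⟩ = a i / a j0) {e : ℕ}
    {p q : MvPolynomial (Fin (M + 1)) k} (hp : p.IsHomogeneous e) (hq : q.IsHomogeneous e)
    (hxq : val x q ≠ 0) (haq : val a q ≠ 0) (hT : val x p / val x q ∈ T) :
    φ ⟨_, hT⟩ = val a p / val a q := by
  have hj : ∀ {G : MvPolynomial (Fin (M + 1)) k}, G.IsHomogeneous e →
      val a G = a j0 ^ e * val (fun i => a i / a j0) G := by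
    intro G hG
    rw [← val_smul hG]
    congr 1
    funext i
    field_simp
  have hjx : ∀ {G : MvPolynomial (Fin (M + 1)) k}, G.IsHomogeneous e →
      val x G = x j0 ^ e * val (fun i => x i / x j0) G := by
    intro G hG
    rw [← val_smul hG]
    congr 1
    funext i
    field_simp
  have hTT : ∀ G : MvPolynomial (Fin (M + 1)) k,
      ((MvPolynomial.aeval (fun i => (⟨x i / x j0, hxT i⟩ : T)) G : T) : K) =
      val (fun i => x i / x j0) G := fun G =>
    MvPolynomial.comp_aeval_apply (fun i => (⟨x i / x j0, hxT i⟩ : T)) T.val G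
  have hφj : ∀ G : MvPolynomial (Fin (M + 1)) k,
      φ (MvPolynomial.aeval (fun i => (⟨x i / x j0, hxT i⟩ : T)) G) =
      val (fun i => a i / a j0) G := by
    intro G
    rw [MvPolynomial.comp_aeval_apply]
    have h5 : (fun i => φ (⟨x i / x j0, hxT i⟩ : T)) = fun i => a i / a j0 := by
      funext i
      exact hφ i (hxT i)
    rw [h5]
    rfl
  have hx0 : val (fun i => x i / x j0) q ≠ 0 := by
    intro h0
    apply hxq
    rw [hjx hq, h0, mul_zero]
  have ha0 : val (fun i => a i / a j0) q ≠ 0 := by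
    intro h0
    apply haq
    rw [hj hq, h0, mul_zero]
  have h1 : (⟨val x p / val x q, hT⟩ : T) *
      (MvPolynomial.aeval (fun i => (⟨x i / x j0, hxT i⟩ : T)) q : T) =
      MvPolynomial.aeval (fun i => (⟨x i / x j0, hxT i⟩ : T)) p := by
    apply Subtype.ext
    change (val x p / val x q) *
      ((MvPolynomial.aeval (fun i => (⟨x i / x j0, hxT i⟩ : T)) q : T) : K) =
      ((MvPolynomial.aeval (fun i => (⟨x i / x j0, hxT i⟩ : T)) p : T) : K)
    rw [hTT, hTT, hjx hp, hjx hq, mul_div_mul_left _ _ (pow_ne_zero _ hj0),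
      div_mul_cancel₀ _ hx0]
  have h2 := congrArg φ h1
  rw [map_mul, hφj, hφj] at h2
  rw [hj hp, hj hq, mul_div_mul_left _ _ (pow_ne_zero _ ha), ← h2, mul_div_assoc, div_self ha0,
    mul_one]

end ratio

open Classical in
/-- the normalised coordinates of a point of the projective space -/
noncomputable def nrm {r : ℕ} (P : Submodule ℂ (Fin (r + 1) → ℂ)) : Fin (r + 1) → ℂ :=
  if h : ∃ v ∈ P, v 0 = 1 then h.choose else 0

theorem nrm_span {r : ℕ} (u : Fin (r + 1) → ℂ) (hu : u 0 ≠ 0) :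
    nrm (Submodule.span ℂ {u}) = fun i => u i / u 0 := by
  have h : ∃ v ∈ Submodule.span ℂ {u}, v 0 = 1 :=
    ⟨(u 0)⁻¹ • u, Submodule.smul_mem _ _ (Submodule.mem_span_singleton_self u), by
      show (u 0)⁻¹ * u 0 = 1
      exact inv_mul_cancel₀ hu⟩
  unfold nrm
  rw [dif_pos h]
  obtain ⟨h1, h2⟩ := h.choose_spec
  obtain ⟨c, hc⟩ := Submodule.mem_span_singleton.1 h1
  rw [← hc] at h2 ⊢
  have h3 : c * u 0 = 1 := h2
  funext i
  show c * u i = u i / u 0
  rw [eq_div_iff hu]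
  calc c * u i * u 0 = (c * u 0) * u i := by ring
    _ = u i := by rw [h3, one_mul]

/-- **Values of several rational maps.** The ratios of the forms `h` are algebraic over the field generated by
the ratios of the forms `g j`. -/
theorem combine {k : Type} [Field k] [Algebra k ℂ] {K : Type} [Field K] [Algebra k K] {M : ℕ}
    {x : Fin (M + 1) → K} (hx : x ≠ 0) (hgen : coords k x = ⊤) {J : Type} [Fintype J] {r e : J → ℕ}
    {g : ∀ j, Fin (r j + 1) → MvPolynomial (Fin (M + 1)) k}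
    (hg : ∀ j i, (g j i).IsHomogeneous (e j)) (hg0 : ∀ j, val x (g j 0) ≠ 0) {N κ : ℕ}
    {h : Fin (N + 1) → MvPolynomial (Fin (M + 1)) k} (hh : ∀ i, (h i).IsHomogeneous κ)
    {i0 : Fin (N + 1)} (h0 : val x (h i0) ≠ 0)
    (halg : ∀ i, IsAlgebraic (IntermediateField.adjoin k
      (Set.range fun s : (Σ j, Fin (r j + 1)) => val x (g s.1 s.2) / val x (g s.1 0)))
      (val x (h i) / val x (h i0)))
    {R : J → MvPolynomial (Fin (M + 1)) k} (hR : ∀ j, IsForm (R j)) (hRx : ∀ j, val x (R j) ≠ 0) :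
    ∃ (R' : MvPolynomial (Fin (M + 1)) k) (C : ℕ), IsForm R' ∧ val x R' ≠ 0 ∧
      ∀ {ι : Type} (F : ι → MvPolynomial (Fin (M + 1)) k) (D : ℕ) (T : ℝ),
        (∀ j, (lowVals k x (R j) F (g j) D T).Finite) →
        (lowVals k x R' F h D T).Finite ∧
          (lowVals k x R' F h D T).ncard ≤ C * ∏ j, (lowVals k x (R j) F (g j) D T).ncard := by
  classical
  obtain ⟨j0, hj0'⟩ := Function.ne_iff.1 hx
  have hj0 : x j0 ≠ 0 := hj0'
  obtain ⟨n, ⟨en⟩⟩ := Finite.exists_equiv_fin (Σ j, Fin (r j + 1))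
  obtain ⟨c, hc⟩ : ∃ c : Fin n → K, ∀ m, c m =
      val x (g (en.symm m).1 (en.symm m).2) / val x (g (en.symm m).1 0) := ⟨_, fun _ => rfl⟩
  have hrange : Set.range c =
      Set.range fun s : (Σ j, Fin (r j + 1)) => val x (g s.1 s.2) / val x (g s.1 0) := by
    ext z
    constructor
    · rintro ⟨m, rfl⟩
      exact ⟨en.symm m, (hc m).symm⟩
    · rintro ⟨s, rfl⟩
      exact ⟨en s, by rw [hc, Equiv.symm_apply_apply]⟩
  rw [← hrange] at halg
  choose Q hQ hQ0 using fun i => alg_poly c _ (halg i)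
  choose m hm using hQ
  obtain ⟨C1, hC1⟩ : ∃ C1 : Set K, C1 = Set.range c ∪ Set.range (fun i => val x (h i) /
      val x (h i0)) ∪ Set.range (fun i => ((evc (Q i) c).coeff (m i))⁻¹) := ⟨_, rfl⟩
  have hC1fin : C1.Finite := by
    rw [hC1]
    exact ((Set.finite_range _).union (Set.finite_range _)).union (Set.finite_range _)
  obtain ⟨R₀, T₀, hR₀f, hR₀, hC1T, hxT, hsp⟩ := spec hgen hj0 hC1fin
  have hcT : ∀ i, c i ∈ T₀ := fun i => hC1T (by
    rw [hC1]
    exact Or.inl (Or.inl ⟨i, rfl⟩))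
  have hyT : ∀ i, val x (h i) / val x (h i0) ∈ T₀ := fun i => hC1T (by
    rw [hC1]
    exact Or.inl (Or.inr ⟨i, rfl⟩))
  have hQT : ∀ i, ((evc (Q i) c).coeff (m i))⁻¹ ∈ T₀ := fun i => hC1T (by
    rw [hC1]
    exact Or.inr ⟨i, rfl⟩)
  have hval : ∀ {A : Type} [Field A] [Algebra k A] (z : Fin (M + 1) → A),
      val z (R₀ * (∏ j, (R j * g j 0)) * h i0) = val z R₀ *
        (∏ j, (val z (R j) * val z (g j 0))) * val z (h i0) := by
    intro A _ _ z
    unfold val
    rw [map_mul, map_mul, map_prod]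
    simp only [map_mul]
  refine ⟨R₀ * (∏ j, (R j * g j 0)) * h i0, ∏ i, (Q i).natDegree, ?_, ?_, ?_⟩
  · obtain ⟨e0, he0⟩ := hR₀f
    choose eR heR using hR
    have h1 : (∏ j, (R j * g j 0)).IsHomogeneous (∑ j, (eR j + e j)) :=
      MvPolynomial.IsHomogeneous.prod _ _ _ fun j _ => (heR j).mul (hg j 0)
    exact ⟨_, (he0.mul h1).mul (hh i0)⟩
  · rw [hval]
    refine mul_ne_zero (mul_ne_zero hR₀ ?_) h0
    exact Finset.prod_ne_zero_iff.2 fun j _ => mul_ne_zero (hRx j) (hg0 j)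
  intro ι F D T hfin
  obtain ⟨sv, hsv⟩ : ∃ sv : (∀ j, Submodule ℂ (Fin (r j + 1) → ℂ)) → Fin n → ℂ,
      ∀ PP m, sv PP m = nrm (PP (en.symm m).1) (en.symm m).2 := ⟨_, fun _ _ => rfl⟩
  obtain ⟨tup, htup⟩ : ∃ tup : Finset (∀ j, Submodule ℂ (Fin (r j + 1) → ℂ)),
      tup = Fintype.piFinset fun j => (hfin j).toFinset := ⟨_, rfl⟩
  obtain ⟨V, hV⟩ : ∃ V : (∀ j, Submodule ℂ (Fin (r j + 1) → ℂ)) → Finset (Fin (N + 1) → ℂ),
      ∀ PP, V PP = Fintype.piFinset fun i => (evc (Q i) (sv PP)).roots.toFinset :=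
    ⟨_, fun _ => rfl⟩
  have hVc : ∀ PP, (V PP).card ≤ ∏ i, (Q i).natDegree := by
    intro PP
    rw [hV, Fintype.card_piFinset]
    refine Finset.prod_le_prod' fun i _ => ?_
    exact (Multiset.toFinset_card_le _).trans ((card_roots' _).trans natDegree_map_le)
  have hsub : lowVals k x (R₀ * (∏ j, (R j * g j 0)) * h i0) F h D T ⊆
      ((tup.biUnion V).image fun y => Submodule.span ℂ {y} :
        Finset (Submodule ℂ (Fin (N + 1) → ℂ))) := by
    rintro P ⟨L, i1, i2, i3, σ, a, hL, ha, haR, hht, rfl⟩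
    rw [hval] at haR
    have haR0 : val a R₀ ≠ 0 := left_ne_zero_of_mul (left_ne_zero_of_mul haR)
    have haRj : ∀ j, val a (R j) * val a (g j 0) ≠ 0 := fun j =>
      Finset.prod_ne_zero_iff.1 (right_ne_zero_of_mul (left_ne_zero_of_mul haR)) j
        (Finset.mem_univ j)
    have hah : val a (h i0) ≠ 0 := right_ne_zero_of_mul haR
    obtain ⟨ha0, φ, hφ⟩ := hsp L a ha haR0
    obtain ⟨PP, hPP⟩ : ∃ PP : ∀ j, Submodule ℂ (Fin (r j + 1) → ℂ),
        ∀ j, PP j = Submodule.span ℂ {fun l => σ (val a (g j l))} := ⟨_, fun _ => rfl⟩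
    have hPPt : PP ∈ tup := by
      rw [htup, Fintype.mem_piFinset]
      intro j
      rw [Set.Finite.mem_toFinset, hPP]
      exact ⟨L, i1, i2, i3, σ, a, hL, ha, left_ne_zero_of_mul (haRj j), hht, rfl⟩
    have hcv : ∀ i, (σ.comp φ) ⟨c i, hcT i⟩ = sv PP i := by
      intro i
      have haj : val a (g (en.symm i).1 0) ≠ 0 := right_ne_zero_of_mul (haRj _)
      have hmem : val x (g (en.symm i).1 (en.symm i).2) / val x (g (en.symm i).1 0) ∈ T₀ := by
        rw [← hc]
        exact hcT i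
      have h1 := phi_ratio hj0 hxT ha0 φ hφ (hg (en.symm i).1 (en.symm i).2)
        (hg (en.symm i).1 0) (hg0 _) haj hmem
      have h2 : (⟨c i, hcT i⟩ : T₀) = ⟨_, hmem⟩ := Subtype.ext (hc i)
      show σ (φ ⟨c i, hcT i⟩) = _
      rw [h2, h1, hsv, hPP, nrm_span _ (by
        show σ (val a (g (en.symm i).1 0)) ≠ 0
        exact (_root_.map_ne_zero _).2 haj), map_div₀]
    rw [Finset.coe_image]
    refine ⟨fun i => (σ.comp φ) ⟨_, hyT i⟩, ?_, ?_⟩
    · rw [Finset.mem_coe, Finset.mem_biUnion]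
      refine ⟨PP, hPPt, ?_⟩
      rw [hV, Fintype.mem_piFinset]
      intro i
      have h1 := alg_spec' (σ.comp φ) hcT (hyT i) (hm i) (hQT i) (hQ0 i)
      have h2 : (fun i => (σ.comp φ) ⟨c i, hcT i⟩) = sv PP := funext hcv
      rw [h2] at h1
      rw [Multiset.mem_toFinset, mem_roots h1.1, IsRoot.def]
      exact h1.2
    · have h5 : (fun i => (σ.comp φ) ⟨_, hyT i⟩) =
          (σ (val a (h i0)))⁻¹ • fun i => σ (val a (h i)) := by
        funext i
        show σ (φ ⟨_, hyT i⟩) = (σ (val a (h i0)))⁻¹ * σ (val a (h i))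
        rw [phi_ratio hj0 hxT ha0 φ hφ (hh i) (hh i0) h0 hah (hyT i), map_div₀, div_eq_mul_inv,
          mul_comm]
      have hσa : σ (val a (h i0)) ≠ 0 := (_root_.map_ne_zero _).2 hah
      show Submodule.span ℂ {fun i => (σ.comp φ) ⟨_, hyT i⟩} = _
      rw [h5]
      exact Submodule.span_singleton_smul_eq (IsUnit.mk0 _ (inv_ne_zero hσa)) _
  refine ⟨(Finset.finite_toSet _).subset hsub, ?_⟩
  refine (Set.ncard_le_ncard hsub (Finset.finite_toSet _)).trans ?_
  rw [Set.ncard_coe_finset]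
  refine Finset.card_image_le.trans (Finset.card_biUnion_le.trans ?_)
  refine (Finset.sum_le_card_nsmul _ _ _ fun PP _ => hVc PP).trans (le_of_eq ?_)
  rw [smul_eq_mul, mul_comm, htup, Fintype.card_piFinset]
  congr 1
  refine Finset.prod_congr rfl fun j _ => ?_
  rw [Set.ncard_eq_toFinset_card _ (hfin j)]

end Pool.Agent.J6H55.MF
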