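import Pool.Agent.J6H55.MF.Rel
import Pool.Agent.J6H55.MF.Congr
import Pool.Agent.J6H55.MF.Model
import Pool.Agent.J6H55.JM.Hyp
import Pool.Agent.J6H55.JM.Down

/-!
# The joint moduli fibration of several maps: hyperbolicity of the base
-/

set_option autoImplicit false

namespace Pool.Agent.J6H55.MF

open Polynomial
open Pool.Agent.W602.GT
open Pool.Agent.Q41.GT (crs)
open Pool.Agent.Q103.EC (HypOff prePer)
open Pool.Agent.J6H55.JM (SDat alg_up elt_mono elt_trans crs_image stab_image hyp_joint gt_joint'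
  alg_down)

/-- hyperbolicity, for coordinates which generate a subfield -/
theorem hyp_sub : ∃ B : ℕ → ℕ, ∀ (K : Type) [Field K] [Algebra ℂ K] (J : Type) [Fintype J]
    (d : J → ℕ) (L : J → IntermediateField ℂ K) (p q : ∀ f, (L f)[X]) (P : ∀ f, Finset (L f)),
    (∀ f, 2 ≤ d f) → (∀ f, SDat ℂ (d f) (p f) (q f) (P f)) → (∀ f, B (d f) ≤ (P f).card) →
    ∀ (M : ℕ) (x : Fin (M + 1) → K), x ≠ 0 → (∀ f, L f ≤ coords ℂ x) →
    (∀ y ∈ coords ℂ x, IsAlgebraic (IntermediateField.adjoin ℂ (⋃ f, (L f : Set K))) y) →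
    ∃ R, HypOff x R := by
  classical
  obtain ⟨B, hB⟩ := hyp_joint
  refine ⟨B, ?_⟩
  intro K _ _ J _ d L p q P hd hdat hcard M x hx hle halg
  set E := coords ℂ x with hE
  let _ : ∀ f, Algebra (L f) E := fun f => (IntermediateField.inclusion (hle f)).toRingHom.toAlgebra
  have _ : ∀ f, IsScalarTower ℂ (L f) E := fun f => IsScalarTower.of_algebraMap_eq fun c => rfl
  obtain ⟨s, u, hs, hu, hu0, hutop⟩ := exists_coords' (k := ℂ) hx
  obtain ⟨R, hR⟩ := hB E J d (fun f => L f) p q P hd hdat hcard (by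
    refine ⟨fun y => alg_down E (S := ⋃ f, (L f : Set K)) ?_ y (halg y y.2)⟩
    intro s hs
    obtain ⟨f, hf⟩ := Set.mem_iUnion.1 hs
    exact ⟨algebraMap (L f) E ⟨s, hf⟩, Set.mem_iUnion.2 ⟨f, ⟨s, hf⟩, rfl⟩, rfl⟩) M u hu0 hutop
  refine ⟨R, hypOff_congr ?_ hR⟩
  rintro G ⟨e, he⟩
  have h1 : x = fun i => s * (u i : K) := funext hu
  have h2 : val (fun i => (u i : K)) G = ((val u G : coords ℂ x) : K) := by
    unfold val
    exact (MvPolynomial.aeval_algebraMap_apply K u G)
  have h3 : val x G = s ^ e * ((val u G : coords ℂ x) : K) := by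
    rw [← h2, ← val_smul he s, ← h1]
  rw [h3, mul_eq_zero]
  constructor
  · intro h
    right
    rw [h]
    rfl
  · rintro (h | h)
    · exact absurd h (pow_ne_zero _ hs)
    · exact Subtype.ext h

section cx

variable {k K L : Type} [Field k] [Field K] [Algebra k K] [Algebra k ℂ] [Field L] [Algebra ℂ L]
  [Algebra K L] [Algebra k L] [IsScalarTower k K L] [IsScalarTower k ℂ L]

/-- the field generated over the complex numbers by the image of a field -/
noncomputable def cxf (L : Type) [Field L] [Algebra ℂ L] [Algebra K L] (E : IntermediateField k K) :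
    IntermediateField ℂ L :=
  IntermediateField.adjoin ℂ (algebraMap K L '' (E : Set K))

theorem sdat_cx [DecidableEq L] {E : IntermediateField k K} {d : ℕ} {p q : E[X]} {P : Finset E}
    (h : SDat k d p q P) : ∃ (p' q' : (cxf L E)[X]) (P' : Finset (cxf L E)),
      SDat ℂ d p' q' P' ∧ P'.card = P.card := by
  classical
  have hmem : ∀ y : E, algebraMap K L y ∈ cxf L E := fun y =>
    IntermediateField.subset_adjoin ℂ _ ⟨y, y.2, rfl⟩
  let φ : E →+* cxf L E :=
    { toFun := fun y => ⟨algebraMap K L y, hmem y⟩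
      map_one' := Subtype.ext (map_one _)
      map_mul' := fun a b => Subtype.ext (map_mul (algebraMap K L) _ _)
      map_zero' := Subtype.ext (map_zero _)
      map_add' := fun a b => Subtype.ext (map_add (algebraMap K L) _ _) }
  let _ : Algebra E (cxf L E) := φ.toAlgebra
  let _ : Algebra k (cxf L E) := ((algebraMap ℂ (cxf L E)).comp (algebraMap k ℂ)).toAlgebra
  have _ : IsScalarTower k ℂ (cxf L E) := IsScalarTower.of_algebraMap_eq fun c => rfl
  have _ : IsScalarTower k E (cxf L E) := IsScalarTower.of_algebraMap_eq fun c => by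
    apply Subtype.ext
    show algebraMap ℂ L (algebraMap k ℂ c) = algebraMap K L (algebraMap k K c)
    rw [← IsScalarTower.algebraMap_apply k ℂ L, ← IsScalarTower.algebraMap_apply k K L]
  refine ⟨_, _, _, sdat_up (k := k) (k' := ℂ) (L₀ := E) (L := cxf L E) h ?_,
    Finset.card_image_of_injective _ (algebraMap E (cxf L E)).injective⟩
  apply IntermediateField.lift_injective
  rw [IntermediateField.lift_adjoin, IntermediateField.lift_top]
  show IntermediateField.adjoin ℂ _ = IntermediateField.adjoin ℂ _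
  congr 1
  ext z
  constructor
  · rintro ⟨_, ⟨y, rfl⟩, rfl⟩
    exact ⟨y, y.2, rfl⟩
  · rintro ⟨y, hy, rfl⟩
    exact ⟨_, ⟨⟨y, hy⟩, rfl⟩, rfl⟩

end cx

/-- finitely generated subfields -/
theorem exists_trdeg {k K : Type} [Field k] [Field K] [Algebra k K] {M : ℕ} {x : Fin (M + 1) → K}
    (hx : x ≠ 0) (hgen : coords k x = ⊤) : ∃ w : ℕ, Algebra.trdeg k K = w := by
  obtain ⟨i1, hi1'⟩ := Function.ne_iff.1 hx
  have hi1 : x i1 ≠ 0 := hi1'
  have hu := Pool.Agent.TH466.QG.adjoin_norm hgen hi1
  have halg : Algebra.IsAlgebraic (IntermediateField.adjoin k (Set.range fun i => x i / x i1))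
      K := by
    rw [hu]
    infer_instance
  have halg' := alg_adjoin halg
  obtain ⟨B, hB, hBb⟩ := exists_isTranscendenceBasis_subset (R := k) (A := K)
    (Set.range fun i => x i / x i1)
  have hfin : B.Finite := (Set.finite_range _).subset hB
  have h1 := hBb.cardinalMk_eq_trdeg
  rw [← h1]
  exact Cardinal.lt_aleph0.1 (Cardinal.mk_lt_aleph0_iff.2 hfin.to_subtype)

theorem ess_sub {k K : Type} [Field k] [Field K] [Algebra k K] {M : ℕ} {x : Fin (M + 1) → K}
    (hx : x ≠ 0) (hgen : coords k x = ⊤) (E : IntermediateField k K) :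
    Algebra.EssFiniteType k E := by
  have := ess_of_coords hx hgen
  obtain ⟨w, hw⟩ := exists_trdeg hx hgen
  obtain ⟨v, -, hv⟩ := Pool.Agent.Q103.VR.exists_dim E hw
  exact fg_sub E hv

theorem gens_sub {k K : Type} [Field k] [Field K] [Algebra k K] {M : ℕ} {x : Fin (M + 1) → K}
    (hx : x ≠ 0) (hgen : coords k x = ⊤) (E : IntermediateField k K) :
    ∃ (m : ℕ) (u : Fin m → E), IntermediateField.adjoin k (Set.range u) = ⊤ := by
  have := ess_sub hx hgen E
  obtain ⟨N, y, -, hy⟩ := exists_gens (k := k) (E := E)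
  exact ⟨N + 1, y, hy⟩

/-- **Main theorem.** The base of the joint moduli fibration is hyperbolic. -/
theorem joint_main : ∃ B₀ : ℕ → ℕ, ∀ (k : Type) [Field k] [CharZero k] [Algebra k ℂ] (K : Type)
    [Field K] [Algebra k K] (M : ℕ) (x : Fin (M + 1) → K), x ≠ 0 → coords k x = ⊤ →
    ∀ (J : Type) [Fintype J] (d : J → ℕ) (p q : J → K[X]), (∀ j, 2 ≤ d j) →
    (∀ j, IsCoprime (p j) (q j)) → (∀ j, max (p j).natDegree (q j).natDegree = d j) →
    (∀ j, (B₀ (d j) : ℕ∞) ≤ (prePer (d j) (p j) (q j)).encard) →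
    ∃ E : IntermediateField k K, JointModuli d p q E ∧
      (∀ v : ℕ, 1 ≤ v → Algebra.trdeg k E = v → GeneralType k E v) ∧
      ∀ (N κ : ℕ) (y : Fin (N + 1) → E) (g : Fin (N + 1) → MvPolynomial (Fin (M + 1)) k) (τ : K),
        y ≠ 0 → coords k y = ⊤ → (∀ i, (g i).IsHomogeneous κ) → τ ≠ 0 →
        (∀ i, val x (g i) = τ * (y i : K)) →
      ∀ (L : Type) [Field L] [Algebra ℂ L] [Algebra K L] [Algebra k L] [IsScalarTower k K L]
        [IsScalarTower k ℂ L],
        ∃ (S : MvPolynomial (Fin (N + 1)) ℂ) (R : MvPolynomial (Fin (M + 1)) ℂ),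
          HypOff (fun i => algebraMap K L (y i)) S ∧
          RelOff (fun i => algebraMap K L (x i))
            (fun i => MvPolynomial.map (algebraMap k ℂ) (g i)) R := by
  classical
  obtain ⟨B1, hB1⟩ := gt_joint'
  obtain ⟨B2, hB2⟩ := hyp_sub
  refine ⟨fun d => max (3 * d + 7) (max (B1 d) (B2 d)), ?_⟩
  intro k _ _ _ K _ _ M x hx hgen J _ d p q hd hco hmax hmany
  obtain ⟨E, E₁, hE, hle, hE₁, halg, hdat⟩ := exists_joint (k := k) hd
    (n := fun j => max (3 * d j + 7) (max (B1 (d j)) (B2 (d j)))) (fun j => le_max_left _ _)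
    hco hmax hmany (gens_sub hx hgen)
  choose p' q' P' hdat' hcard using hdat
  refine ⟨E, hE, fun v hv htr => ?_, ?_⟩
  · exact hB1 k K E v hv htr J d E₁ p' q' P' hd hdat'
      (fun j => ((le_max_left _ _).trans (le_max_right _ _)).trans (hcard j)) hle halg
  intro N κ y g τ hy hygen hg hτ hgy L _ _ _ _ _ _
  have hy' : (fun i => algebraMap K L (y i)) ≠ 0 := by
    intro h0
    apply hy
    funext i
    apply Subtype.ext
    exact (map_eq_zero (algebraMap K L)).1 (congrFun h0 i)
  choose p2 q2 P2 hdat2 hcard2 using fun j => sdat_cx (L := L) (hdat' j)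
  -- the image of `E` is generated by `y`
  have hEy : ∀ c ∈ E, algebraMap K L c ∈ coords ℂ (fun i => algebraMap K L (y i)) := by
    set F' := coords ℂ (fun i => algebraMap K L (y i)) with hF'
    have hk : ∀ c : k, algebraMap K L (algebraMap E K (algebraMap k E c)) ∈ F' := by
      intro c
      rw [← IsScalarTower.algebraMap_apply k E K, ← IsScalarTower.algebraMap_apply k K L,
        IsScalarTower.algebraMap_apply k ℂ L]
      exact F'.algebraMap_mem _
    let F0 : IntermediateField k E :=
      { F'.toSubfield.comap ((algebraMap K L).comp (algebraMap E K)) with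
        algebraMap_mem' := fun c => hk c }
    have hle0 : coords k y ≤ F0 := by
      unfold coords
      rw [IntermediateField.adjoin_le_iff]
      rintro _ ⟨i, j, hj, rfl⟩
      show algebraMap K L (algebraMap E K (y i / y j)) ∈ F'
      refine IntermediateField.subset_adjoin ℂ _ ⟨i, j, ?_, ?_⟩
      · intro h0
        apply hj
        apply Subtype.ext
        exact (map_eq_zero (algebraMap K L)).1 h0
      · rw [map_div₀, map_div₀]
        rfl
    intro c hc
    exact hle0 (show (⟨c, hc⟩ : E) ∈ coords k y by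
      rw [hygen]
      exact IntermediateField.mem_top)
  obtain ⟨S, hS⟩ := hB2 L J d (fun j => cxf L (E₁ j)) p2 q2 P2 hd hdat2
    (fun j => by
      rw [hcard2]
      exact ((le_max_right _ _).trans (le_max_right _ _)).trans (hcard j))
    N _ hy' (fun j => by
      unfold cxf
      rw [IntermediateField.adjoin_le_iff]
      rintro _ ⟨c, hc, rfl⟩
      exact hEy c (hle j hc)) (by
      intro c hc
      refine elt_trans (S := {z | ∃ i j, (fun i => algebraMap K L (y i)) j ≠ 0 ∧
        z = (fun i => algebraMap K L (y i)) i / (fun i => algebraMap K L (y i)) j}) ?_ ?_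
      · rintro _ ⟨i, j, hj, rfl⟩
        have h1 : algebraMap K L (y i) / algebraMap K L (y j) =
            algebraMap K L ((y i : K) / (y j : K)) := (map_div₀ _ _ _).symm
        show IsAlgebraic _ (algebraMap K L (y i) / algebraMap K L (y j))
        rw [h1]
        refine alg_up (k := k) (k' := ℂ) (S := ⋃ j, (E₁ j : Set K)) ?_
          (halg _ (div_mem (y i).2 (y j).2))
        intro c hc
        obtain ⟨j, hj⟩ := Set.mem_iUnion.1 hc
        exact Set.mem_iUnion.2 ⟨j, IntermediateField.subset_adjoin ℂ _ ⟨c, hj, rfl⟩⟩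
      · exact isAlgebraic_algebraMap (⟨c, hc⟩ : coords ℂ (fun i => algebraMap K L (y i))))
  obtain ⟨R, hR⟩ := relOff_of (x := fun i => algebraMap K L (x i)) hy'
    (g := fun i => MvPolynomial.map (algebraMap k ℂ) (g i)) (κ := κ) (τ := algebraMap K L τ)
    ((_root_.map_ne_zero _).2 hτ) (fun i => (hg i).map _) (fun i => by
      have h2 : val (fun i => algebraMap K L (x i)) (MvPolynomial.map (algebraMap k ℂ) (g i)) =
          algebraMap K L (val x (g i)) := by
        unfold val
        rw [MvPolynomial.aeval_map_algebraMap]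
        exact MvPolynomial.aeval_algebraMap_apply L x (g i)
      rw [h2, hgy i, map_mul]) hS
  exact ⟨S, R, hS, hR⟩

end Pool.Agent.J6H55.MF
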