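import Pool.Agent.J6H55.MF.Comb
import Pool.Agent.J6H55.MF.Cx
import Pool.Agent.Q103.RP.Hyp

/-!
# The joint moduli fibration: points of bounded degree
-/

set_option autoImplicit false

namespace Pool.Agent.J6H55.MF

open Polynomial Height
open Pool.Agent.W602.GT (IsForm val coords GeneralType)
open Pool.Agent.Q103.EC (prePer HypOff)
open Pool.Agent.Q103.VR (DefinedOver ModuliFibration)
open Pool.Agent.Q103.RP (cfv lowVals lowVals_sub main_gen)

theorem JointModuli.unique {k K : Type} [Field k] [Field K] [Algebra k K] {J : Type} {d : J → ℕ}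
    {p q : J → K[X]} {E E' : IntermediateField k K} (h : JointModuli d p q E)
    (h' : JointModuli d p q E') : E = E' := by
  apply le_antisymm
  · intro y hy
    exact h'.closed y (h.least E' h'.defined y hy)
  · intro y hy
    exact h.closed y (h'.least E h.defined y hy)

/-- **The images of the points of bounded degree in the base of the joint moduli fibration are
sparse.** -/
theorem pts_joint : ∃ B : ℕ → ℕ → ℝ → ℕ, ∀ (k : Type) [Field k] [NumberField k] [Algebra k ℂ]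
    (K : Type) [Field K] [Algebra k K] (M : ℕ) (x : Fin (M + 1) → K), x ≠ 0 → coords k x = ⊤ →
    ∀ (J : Type) [Fintype J] (d n : J → ℕ) (p q : J → K[X]), (∀ j, 2 ≤ d j) →
    (∀ j, 3 * d j + 7 ≤ n j) → (∀ j, IsCoprime (p j) (q j)) →
    (∀ j, max (p j).natDegree (q j).natDegree = d j) →
    (∀ j, (n j : ℕ∞) ≤ (prePer (d j) (p j) (q j)).encard) →
    ∀ E : IntermediateField k K, JointModuli d p q E →
    ∀ (κ : J → ℕ) (F : ∀ j, Fin 2 × Fin (d j + 1) → MvPolynomial (Fin (M + 1)) k) (t : J → K),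
    (∀ j s, (F j s).IsHomogeneous (κ j)) → (∀ j, t j ≠ 0) →
    (∀ j s, cfv (d j) (p j) (q j) s = t j * val x (F j s)) →
    ∀ (N e : ℕ) (g : Fin (N + 1) → MvPolynomial (Fin (M + 1)) k) (i0 : Fin (N + 1)),
    (∀ i, (g i).IsHomogeneous e) → val x (g i0) ≠ 0 → (∀ i, val x (g i) / val x (g i0) ∈ E) →
    ∃ R : MvPolynomial (Fin (M + 1)) k, IsForm R ∧ val x R ≠ 0 ∧
      ∀ (D : ℕ) (ε : ℝ), 0 < ε → (∀ j, B (d j) D ε ≤ n j) → ∃ C : ℝ, ∀ T : ℝ, 1 ≤ T →
        (lowVals k x R MvPolynomial.X g D T).Finite ∧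
          ((lowVals k x R MvPolynomial.X g D T).ncard : ℝ) ≤ C * T ^ ((∑ j, κ j : ℕ) * ε) := by
  classical
  choose B hB using main_gen
  refine ⟨fun d D ε => if h : 2 ≤ d then B d h D ε else 0, ?_⟩
  intro k _ _ _ K _ _ M x hx hgen J _ d n p q hd hn hco hmax hmany E hE κ F t hF ht hFt N e g i0
    hg hg0 hgE
  obtain ⟨E', E₁, hE', hle, hE₁, halg, -⟩ := exists_joint (k := k) hd hn hco hmax hmany
    (gens_sub hx hgen)
  rw [hE'.unique hE] at halg
  -- models of the moduli fields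
  have hmod : ∀ j, ∃ (r e : ℕ) (y : Fin (r + 1) → E₁ j)
      (g : Fin (r + 1) → MvPolynomial (Fin (M + 1)) k) (τ : K), y 0 = 1 ∧
      IntermediateField.adjoin k (Set.range y) = ⊤ ∧ (∀ i, (g i).IsHomogeneous e) ∧ τ ≠ 0 ∧
      ∀ i, val x (g i) = τ * (y i : K) := fun j => by
    have := ess_sub hx hgen (E₁ j)
    exact exists_model' hx hgen (E₁ j)
  choose r e₁ y g₁ τ hy0 hytop hg₁ hτ hgy using hmod
  have hg₁0 : ∀ j, val x (g₁ j 0) ≠ 0 := fun j => by
    rw [hgy, hy0]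
    exact mul_ne_zero (hτ j) one_ne_zero
  have hratio : ∀ j i, val x (g₁ j i) / val x (g₁ j 0) = (y j i : K) := fun j i => by
    rw [hgy, hgy, hy0, mul_div_mul_left _ _ (hτ j)]
    exact div_one _
  -- the points, for each map
  have hone : ∀ j, ∃ F₀ : IntermediateField k K, DefinedOver (d j) (p j) (q j) F₀ ∧
      ∀ (r e : ℕ) (g : Fin (r + 1) → MvPolynomial (Fin (M + 1)) k),
      (∀ j, (g j).IsHomogeneous e) → val x (g 0) ≠ 0 →
      (∀ j, IsAlgebraic F₀ (val x (g j) / val x (g 0))) →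
      ∃ R : MvPolynomial (Fin (M + 1)) k, IsForm R ∧ val x R ≠ 0 ∧
        ∀ (D : ℕ) (ε : ℝ), 0 < ε → B (d j) (hd j) D ε ≤ n j → ∃ C : ℝ, ∀ T : ℝ, 1 ≤ T →
        (lowVals k x R (F j) g D T).Finite ∧ ((lowVals k x R (F j) g D T).ncard : ℝ) ≤ C * T ^ ε :=
    fun j => hB (d j) (hd j) k K M x hx hgen (p j) (q j) (hco j) (hmax j) (n j) (hmany j) (κ j)
      (F j) (t j) (hF j) (ht j) (hFt j)
  choose F₀ hF₀ hone using hone
  choose R hR hRx hRC using fun j => hone j (r j) (e₁ j) (g₁ j) (hg₁ j) (hg₁0 j) (fun i => by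
    rw [hratio]
    exact (hE₁ j).least (F₀ j) (hF₀ j) _ (y j i).2)
  obtain ⟨R', Cst, hR', hR'x, hcomb⟩ := combine hx hgen hg₁ hg₁0 hg hg0 (by
    intro i
    refine Pool.Agent.J6H55.JM.elt_mono ?_ (halg _ (hgE i))
    rw [IntermediateField.adjoin_le_iff]
    intro c hc
    obtain ⟨j, hj⟩ := Set.mem_iUnion.1 hc
    have h1 : (⟨c, hj⟩ : E₁ j) ∈ IntermediateField.adjoin k (Set.range (y j)) := by
      rw [hytop]
      exact IntermediateField.mem_top
    have h2 : IntermediateField.adjoin k (Set.range (y j)) ≤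
        (IntermediateField.adjoin k (Set.range fun s : (Σ j, Fin (r j + 1)) =>
          val x (g₁ s.1 s.2) / val x (g₁ s.1 0))).comap (E₁ j).val := by
      rw [IntermediateField.adjoin_le_iff]
      rintro _ ⟨i, rfl⟩
      exact IntermediateField.subset_adjoin k _ ⟨⟨j, i⟩, hratio j i⟩
    exact h2 h1) hR hRx
  refine ⟨R', hR', hR'x, fun D ε hε hBn => ?_⟩
  have hBn' : ∀ j, B (d j) (hd j) D ε ≤ n j := by
    intro j
    have h1 : (if h : 2 ≤ d j then B (d j) h D ε else 0) ≤ n j := hBn j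
    rwa [dif_pos (hd j)] at h1
  choose C hC using fun j => hRC j D ε hε (hBn' j)
  choose c hc hsub using fun j => lowVals_sub x (F j) (hF j) D
  have hC0 : ∀ j, 0 ≤ C j := by
    intro j
    have h1 := (hC j 1 le_rfl).2
    rw [Real.one_rpow, mul_one] at h1
    exact le_trans (by positivity) h1
  refine ⟨Cst * ∏ j, (C j * c j ^ ε), fun T hT => ?_⟩
  have hT0 : 0 ≤ T := zero_le_one.trans hT
  have hfin : ∀ j, (lowVals k x (R j) MvPolynomial.X (g₁ j) D T).Finite ∧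
      ((lowVals k x (R j) MvPolynomial.X (g₁ j) D T).ncard : ℝ) ≤
        C j * c j ^ ε * T ^ (κ j * ε) := by
    intro j
    have h1 : 1 ≤ c j * T ^ κ j := one_le_mul_of_one_le_of_one_le (hc j) (one_le_pow₀ hT)
    obtain ⟨h2, h3⟩ := hC j _ h1
    have h5 := hsub j (R j) (r j) (g₁ j) T hT
    refine ⟨h2.subset h5, ?_⟩
    have h4 : ((lowVals k x (R j) MvPolynomial.X (g₁ j) D T).ncard : ℝ) ≤
        (lowVals k x (R j) (F j) (g₁ j) D (c j * T ^ κ j)).ncard := by
      exact_mod_cast Set.ncard_le_ncard h5 h2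
    refine (h4.trans h3).trans (le_of_eq ?_)
    rw [Real.mul_rpow (by linarith [hc j]) (by positivity), ← Real.rpow_natCast T (κ j),
      ← Real.rpow_mul hT0]
    ring
  obtain ⟨h1, h2⟩ := hcomb MvPolynomial.X D T fun j => (hfin j).1
  refine ⟨h1, ?_⟩
  have h3 : ((lowVals k x R' MvPolynomial.X g D T).ncard : ℝ) ≤
      Cst * ∏ j, ((lowVals k x (R j) MvPolynomial.X (g₁ j) D T).ncard : ℝ) := by
    exact_mod_cast h2
  refine h3.trans ?_
  have h4 : ∏ j, ((lowVals k x (R j) MvPolynomial.X (g₁ j) D T).ncard : ℝ) ≤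
      ∏ j, (C j * c j ^ ε * T ^ (κ j * ε)) :=
    Finset.prod_le_prod (fun j _ => Nat.cast_nonneg _) fun j _ => (hfin j).2
  have h5 : ∏ j, (C j * c j ^ ε * T ^ ((κ j : ℝ) * ε)) =
      (∏ j, (C j * c j ^ ε)) * T ^ (((∑ j, κ j : ℕ) : ℝ) * ε) := by
    rw [Finset.prod_mul_distrib]
    congr 1
    rw [← Real.rpow_sum_of_pos (by linarith) , ← Finset.sum_mul]
    push_cast
    rfl
  calc (Cst : ℝ) * ∏ j, ((lowVals k x (R j) MvPolynomial.X (g₁ j) D T).ncard : ℝ)
      ≤ Cst * ∏ j, (C j * c j ^ ε * T ^ ((κ j : ℝ) * ε)) :=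
        mul_le_mul_of_nonneg_left h4 (Nat.cast_nonneg _)
    _ = _ := by rw [h5]; ring

end Pool.Agent.J6H55.MF
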