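import Pool.Agent.J6H55.MF.Defs
import Pool.Agent.Q103.EC.Hyp

/-!
# Rational maps and hyperbolicity

`x`, `y` are the generic points of projective varieties `X`, `Y`, and forms `g` with
`val x (g i) = τ * y i` give a dominant rational map `X ⇢ Y`. If `Y` is hyperbolic modulo a proper closed subset then
the entire curves, … in `X` outside of a proper closed subset are contracted.
-/

set_option autoImplicit false

namespace Pool.Agent.J6H55.MF

open FF Polynomial Metric
open Pool.Agent.W602.GT
open Pool.Agent.TH466.QG (SubOf)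
open Pool.Agent.Y221.BD (EntireCurve)
open Pool.Agent.Y221.PD (MeroMap)
open Pool.Agent.Y216 (OnVar)
open Pool.Agent.W603.LV (canDeg)
open Pool.Agent.W603.PV (pht)
open Pool.Agent.Q103.EC (HypOff isForm_mul val_mul')
open Pool.Agent.Q103.KO (IsPoint SameP Chain Disc)

section comp

variable {k : Type} [Field k] {M N : ℕ}

theorem val_comp {E : Type} [Field E] [Algebra k E] (g : Fin (N + 1) → MvPolynomial (Fin (M + 1)) k)
    (z : Fin (M + 1) → E) (G : MvPolynomial (Fin (N + 1)) k) :
    val z (MvPolynomial.bind₁ g G) = val (fun i => val z (g i)) G := by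
  unfold val
  rw [MvPolynomial.aeval_bind₁]

theorem bind_hom {κ e : ℕ} {g : Fin (N + 1) → MvPolynomial (Fin (M + 1)) k}
    (hg : ∀ i, (g i).IsHomogeneous κ) {G : MvPolynomial (Fin (N + 1)) k} (hG : G.IsHomogeneous e) :
    (MvPolynomial.bind₁ g G).IsHomogeneous (κ * e) :=
  hG.aeval g hg

theorem bind_form {κ : ℕ} {g : Fin (N + 1) → MvPolynomial (Fin (M + 1)) k}
    (hg : ∀ i, (g i).IsHomogeneous κ) {G : MvPolynomial (Fin (N + 1)) k} (hG : IsForm G) :
    IsForm (MvPolynomial.bind₁ g G) := by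
  obtain ⟨e, he⟩ := hG
  exact ⟨κ * e, bind_hom hg he⟩

variable {L : Type} [Field L] [Algebra k L] {x : Fin (M + 1) → L} {y : Fin (N + 1) → L}
  {g : Fin (N + 1) → MvPolynomial (Fin (M + 1)) k} {κ : ℕ} {τ : L}

theorem val_gen (hg : ∀ i, val x (g i) = τ * y i) {G : MvPolynomial (Fin (N + 1)) k} {e : ℕ}
    (hG : G.IsHomogeneous e) : val x (MvPolynomial.bind₁ g G) = τ ^ e * val y G := by
  rw [val_comp]
  have h1 : (fun i => val x (g i)) = fun i => τ * y i := funext hg
  rw [h1]
  exact val_smul hG τ y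

theorem spec_comp (hh : ∀ i, (g i).IsHomogeneous κ) (hg : ∀ i, val x (g i) = τ * y i)
    {E : Type} [Field E] [Algebra k E] {z : Fin (M + 1) → E}
    (hz : ∀ G : MvPolynomial (Fin (M + 1)) k, IsForm G → val x G = 0 → val z G = 0)
    (G : MvPolynomial (Fin (N + 1)) k) (hG : IsForm G) (hy : val y G = 0) :
    val (fun i => val z (g i)) G = 0 := by
  obtain ⟨e, he⟩ := hG
  rw [← val_comp]
  refine hz _ ⟨_, bind_hom hh he⟩ ?_
  rw [val_gen hg he, hy, mul_zero]

end comp

/-- the coordinates of a point in the field which they generate -/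
theorem exists_coords' {k : Type} [Field k] {E : Type} [Field E] [Algebra k E] {N : ℕ}
    {z : Fin (N + 1) → E} (hz : z ≠ 0) : ∃ (s : E) (u : Fin (N + 1) → coords k z), s ≠ 0 ∧
      (∀ i, z i = s * (u i : E)) ∧ u ≠ 0 ∧ coords k u = ⊤ := by
  obtain ⟨j, hj'⟩ := Function.ne_iff.1 hz
  have hj : z j ≠ 0 := hj'
  have hmem : ∀ i, z i / z j ∈ coords k z := fun i =>
    IntermediateField.subset_adjoin k _ ⟨i, j, hj, rfl⟩
  refine ⟨z j, fun i => ⟨z i / z j, hmem i⟩, hj, fun i => ?_, ?_, ?_⟩
  · show z i = z j * (z i / z j)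
    field_simp
  · intro h
    have h1 := congrArg (fun y : coords k z => (y : E)) (congrFun h j)
    simp only [Pi.zero_apply, ZeroMemClass.coe_zero] at h1
    rw [div_self hj] at h1
    exact one_ne_zero h1
  · unfold coords
    apply IntermediateField.lift_injective
    rw [IntermediateField.lift_adjoin, IntermediateField.lift_top]
    congr 1
    ext y
    constructor
    · rintro ⟨_, ⟨a, b, hb, rfl⟩, rfl⟩
      have hb' : z b ≠ 0 := by
        intro h0
        apply hb
        apply Subtype.ext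
        show z b / z j = 0
        rw [h0, zero_div]
      refine ⟨a, b, hb', ?_⟩
      show (z a / z j) / (z b / z j) = z a / z b
      field_simp
    · rintro ⟨a, b, hb, rfl⟩
      refine ⟨_, ⟨a, b, ?_, rfl⟩, ?_⟩
      · intro h0
        have h1 := congrArg (fun y : coords k z => (y : E)) h0
        have h2 : z b / z j = 0 := h1
        exact (div_ne_zero hb hj) h2
      · show (z a / z j) / (z b / z j) = z a / z b
        field_simp

/-- an entire curve is a meromorphic map -/
theorem mero_of_entire {M : ℕ} {L : Type} [Field L] [Algebra ℂ L] {x : Fin (M + 1) → L}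
    {f : Fin (M + 1) → ℂ → ℂ} (hf : EntireCurve x f) :
    MeroMap x 1 (fun i t => f i (t 0)) := by
  refine ⟨fun i => (hf.hol i).comp (differentiable_apply 0), fun G hG hx t => hf.mem G hG hx _, ?_⟩
  obtain ⟨i, j, a, b, h⟩ := hf.nonconst
  exact ⟨i, j, fun _ => a, fun _ => b, h⟩

/-- a larger closed subset (compare `Pool.Agent.Q103.RP.hypOff_mul`) -/
theorem hypOff_mul {M : ℕ} {L : Type} [Field L] [Algebra ℂ L] {x : Fin (M + 1) → L}
    {R S : MvPolynomial (Fin (M + 1)) ℂ} (h : HypOff x R) (hS : IsForm S) (hx : val x S ≠ 0) :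
    HypOff x (R * S) := by
  refine ⟨isForm_mul h.form hS, ?_, ?_, ?_, ?_, ?_, ?_, ?_, ?_, ?_⟩
  · rw [val_mul']
    exact mul_ne_zero h.ne hx
  · intro E _ _ w z hz hR hw htr
    rw [val_mul'] at hR
    exact h.sub E w z hz (left_ne_zero_of_mul hR) hw htr
  · intro f hf t ht
    rw [map_mul, h.disc f hf t ht, zero_mul]
  · intro f hf t
    rw [map_mul, h.curve f hf t, zero_mul]
  · intro g f hf t
    rw [map_mul, h.mero g f hf t, zero_mul]
  · intro f hf t ht
    rw [map_mul, h.torus f hf t ht, zero_mul]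
  · intro E _ _ _ c a ha hR
    rw [val_mul'] at hR
    exact h.pointed E c a ha (left_ne_zero_of_mul hR)
  · obtain ⟨A, hA⟩ := h.degree
    refine ⟨A, fun E _ _ _ f hf hR => ?_⟩
    rw [val_mul'] at hR
    exact hA E f hf (left_ne_zero_of_mul hR)
  · intro a b ha hb hab hR
    refine h.kobayashi a b ha hb hab ?_
    rcases hR with hR | hR
    · rw [map_mul] at hR
      exact Or.inl (left_ne_zero_of_mul hR)
    · rw [map_mul] at hR
      exact Or.inr (left_ne_zero_of_mul hR)

theorem diff_eval {σ : Type} {m : ℕ} {h : σ → (Fin m → ℂ) → ℂ} (hh : ∀ i, Differentiable ℂ (h i))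
    (G : MvPolynomial σ ℂ) : Differentiable ℂ fun t => MvPolynomial.eval (fun l => h l t) G := by
  induction G using MvPolynomial.induction_on with
  | C c =>
    simp only [MvPolynomial.eval_C]
    exact differentiable_const c
  | add p q hp hq =>
    simp only [map_add]
    exact hp.add hq
  | mul_X p i hp =>
    simp only [map_mul, MvPolynomial.eval_X]
    exact hp.mul (hh i)

theorem diffOn_eval {M : ℕ} {U : Set ℂ} {h : ℂ → Fin (M + 1) → ℂ}
    (hh : ∀ i, DifferentiableOn ℂ (fun t => h t i) U)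
    (G : MvPolynomial (Fin (M + 1)) ℂ) :
    DifferentiableOn ℂ (fun t => MvPolynomial.eval (h t) G) U := by
  induction G using MvPolynomial.induction_on with
  | C c =>
    simp only [MvPolynomial.eval_C]
    exact differentiableOn_const c
  | add p q hp hq =>
    simp only [map_add]
    exact hp.add hq
  | mul_X p i hp =>
    simp only [map_mul, MvPolynomial.eval_X]
    exact hp.mul (hh i)

theorem val_cx {M : ℕ} (z : Fin (M + 1) → ℂ) (G : MvPolynomial (Fin (M + 1)) ℂ) :
    val z G = MvPolynomial.eval z G := by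
  unfold val
  rw [MvPolynomial.aeval_eq_eval]

/-- the images of the points -/
theorem point_comp {M N κ : ℕ} {L : Type} [Field L] [Algebra ℂ L] {x : Fin (M + 1) → L}
    {y : Fin (N + 1) → L} {g : Fin (N + 1) → MvPolynomial (Fin (M + 1)) ℂ} {τ : L}
    (hh : ∀ i, (g i).IsHomogeneous κ) (hg : ∀ i, val x (g i) = τ * y i) {a : Fin (M + 1) → ℂ}
    (ha : ∀ G : MvPolynomial (Fin (M + 1)) ℂ, IsForm G → val x G = 0 →
      MvPolynomial.eval a G = 0) (G : MvPolynomial (Fin (N + 1)) ℂ) (hG : IsForm G)
    (hy : val y G = 0) : MvPolynomial.eval (fun i => MvPolynomial.eval a (g i)) G = 0 := by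
  have h2 := spec_comp (E := ℂ) hh hg (z := a) (fun G hG hx => by
    rw [val_cx]
    exact ha G hG hx) G hG hy
  rw [val_cx] at h2
  simp only [val_cx] at h2
  exact h2

/-- the images of the chains -/
theorem chain_comp {M N κ : ℕ} {L : Type} [Field L] [Algebra ℂ L] {x : Fin (M + 1) → L}
    {y : Fin (N + 1) → L} {g : Fin (N + 1) → MvPolynomial (Fin (M + 1)) ℂ} {τ : L}
    (hh : ∀ i, (g i).IsHomogeneous κ) (hg : ∀ i, val x (g i) = τ * y i)
    (hmor : ∀ a, IsPoint x a → ∃ i, MvPolynomial.eval a (g i) ≠ 0) {a b : Fin (M + 1) → ℂ} {l : ℝ}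
    (hc : Chain x a b l) : Chain y (fun i => MvPolynomial.eval a (g i))
      (fun i => MvPolynomial.eval b (g i)) l := by
  have hsame : ∀ a b : Fin (M + 1) → ℂ, SameP a b →
      SameP (fun i => MvPolynomial.eval a (g i)) (fun i => MvPolynomial.eval b (g i)) := by
    rintro a _ ⟨c, hc, rfl⟩
    refine ⟨c ^ κ, pow_ne_zero _ hc, ?_⟩
    funext i
    have h1 := val_smul (hh i) c a
    rw [val_cx, val_cx] at h1
    exact h1
  induction hc with
  | nil a b hab => exact Chain.nil _ _ (hsame a b hab)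
  | cons a b f s t l hf hs ht hab _ ih =>
    refine Chain.cons _ _ (fun t i => MvPolynomial.eval (f t) (g i)) s t l
      ⟨fun i => diffOn_eval hf.hol (g i), fun t ht h0 => ?_, fun G hG hy t ht => ?_⟩ hs ht
      (hsame _ _ hab) ih
    · obtain ⟨i, hi⟩ := hmor (f t) ⟨hf.ne t ht, fun G hG hx => hf.mem G hG hx t ht⟩
      exact hi (congrFun h0 i)
    · exact point_comp hh hg (fun G hG hx => hf.mem G hG hx t ht) G hG hy

/-- **Rational maps to hyperbolic varieties.** -/
theorem relOff_of {M N κ : ℕ} {L : Type} [Field L] [Algebra ℂ L] {x : Fin (M + 1) → L}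
    {y : Fin (N + 1) → L} (hy : y ≠ 0) {g : Fin (N + 1) → MvPolynomial (Fin (M + 1)) ℂ} {τ : L}
    (hτ : τ ≠ 0) (hh : ∀ i, (g i).IsHomogeneous κ) (hg : ∀ i, val x (g i) = τ * y i)
    {S : MvPolynomial (Fin (N + 1)) ℂ} (hS : HypOff y S) : ∃ R, RelOff x g R := by
  obtain ⟨j0, hj0'⟩ := Function.ne_iff.1 hy
  have hj0 : y j0 ≠ 0 := hj0'
  have hS' : HypOff y (S * MvPolynomial.X j0) := hypOff_mul hS
    ⟨1, MvPolynomial.isHomogeneous_X ℂ j0⟩ (by
      unfold val
      rw [MvPolynomial.aeval_X]
      exact hj0)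
  refine ⟨MvPolynomial.bind₁ g (S * MvPolynomial.X j0), ?_⟩
  have hval : ∀ {E : Type} [Field E] [Algebra ℂ E] (z : Fin (M + 1) → E),
      val z (MvPolynomial.bind₁ g (S * MvPolynomial.X j0)) =
        val (fun i => val z (g i)) (S * MvPolynomial.X j0) := fun z => val_comp g z _
  have hdom : ∀ {E : Type} [Field E] [Algebra ℂ E] (z : Fin (M + 1) → E),
      val z (MvPolynomial.bind₁ g (S * MvPolynomial.X j0)) ≠ 0 → val z (g j0) ≠ 0 := by
    intro E _ _ z hz
    rw [hval, val_mul'] at hz
    have h1 := right_ne_zero_of_mul hz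
    unfold val at h1
    rw [MvPolynomial.aeval_X] at h1
    exact h1
  have hne : ∀ {E : Type} [Field E] [Algebra ℂ E] (z : Fin (M + 1) → E),
      val z (MvPolynomial.bind₁ g (S * MvPolynomial.X j0)) ≠ 0 →
        (fun i => val z (g i)) ≠ 0 := by
    intro E _ _ z hz h0
    exact hdom z hz (congrFun h0 j0)
  have hmero : ∀ m h, MeroMap x m h →
      (∃ t, MvPolynomial.eval (fun i => h i t)
        (MvPolynomial.bind₁ g (S * MvPolynomial.X j0)) ≠ 0) →
      ∀ i j s t, MvPolynomial.eval (fun l => h l s) (g i) *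
        MvPolynomial.eval (fun l => h l t) (g j) =
        MvPolynomial.eval (fun l => h l s) (g j) * MvPolynomial.eval (fun l => h l t) (g i) := by
    intro m h hh' ⟨t0, ht0⟩
    by_contra hc
    push Not at hc
    obtain ⟨i, j, s, t, hst⟩ := hc
    apply ht0
    have h1 : MeroMap y m (fun i t => MvPolynomial.eval (fun l => h l t) (g i)) := by
      refine ⟨fun i => diff_eval hh'.hol (g i), fun G hG hy t => ?_, ⟨i, j, s, t, hst⟩⟩
      have h2 := spec_comp (E := ℂ) hh hg (z := fun l => h l t)
        (fun G hG hx => by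
          rw [val_cx]
          exact hh'.mem G hG hx t) G hG hy
      rw [val_cx] at h2
      simp only [val_cx] at h2
      exact h2
    have h3 := hS'.mero m _ h1 t0
    have h4 := hval (E := ℂ) (fun l => h l t0)
    rw [val_cx, val_cx] at h4
    simp only [val_cx] at h4
    rw [h4]
    exact h3
  refine ⟨bind_form hh hS'.form, ?_, ?_, ?_, ?_, hmero, ?_, ?_⟩
  · obtain ⟨e, he⟩ := hS'.form
    rw [val_gen hg he]
    exact mul_ne_zero (pow_ne_zero _ hτ) hS'.ne
  · intro E _ _ z _ hz
    exact ⟨j0, hdom z hz⟩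
  · intro E _ _ v z hz hzR hv htr
    obtain ⟨s, u, hs, hu, hu0, hutop⟩ := exists_coords' (k := ℂ) (hne z hzR)
    have hscale : ∀ G : MvPolynomial (Fin (N + 1)) ℂ, IsForm G →
        (val u G = 0 ↔ val (fun i => val z (g i)) G = 0) := by
      rintro G ⟨e, he⟩
      have h1 : (fun i => val z (g i)) = fun i => s * (u i : E) := funext hu
      have h2 : val (fun i => (u i : E)) G = ((val u G : coords ℂ fun i => val z (g i)) : E) := by
        unfold val
        exact (MvPolynomial.aeval_algebraMap_apply E u G)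
      have h3 : val (fun i => val z (g i)) G =
          s ^ e * ((val u G : coords ℂ fun i => val z (g i)) : E) := by
        rw [← h2, ← val_smul he s, ← h1]
      rw [h3, mul_eq_zero]
      constructor
      · intro h
        right
        rw [h]
        rfl
      · rintro (h | h)
        · exact absurd h (pow_ne_zero _ hs)
        · exact Subtype.ext h
    refine hS'.sub _ v u ⟨hu0, hutop, fun G hG hy => ?_⟩ ?_ hv htr
    · rw [hscale G hG]
      exact spec_comp hh hg hz.spec G hG hy
    · rw [Ne, hscale _ hS'.form, ← hval]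
      exact hzR
  · intro f hf ⟨t0, ht0⟩ i j s t
    exact hmero 1 _ (mero_of_entire hf) ⟨fun _ => t0, ht0⟩ i j (fun _ => s) (fun _ => t)
  · obtain ⟨A, hA⟩ := hS'.degree
    refine ⟨A, fun E _ _ _ f hf hfR => hA E _ ⟨?_, fun G hG hy => spec_comp hh hg hf.2 G hG hy⟩ ?_⟩
    · exact Function.ne_iff.1 (hne f hfR)
    · rw [← hval]
      exact hfR
  · intro hmor a b ha hb hab hR
    have hpt : ∀ a, IsPoint x a → IsPoint y (fun i => MvPolynomial.eval a (g i)) := by
      intro a ha
      obtain ⟨i, hi⟩ := hmor a ha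
      exact ⟨fun h0 => hi (congrFun h0 i), fun G hG hy => point_comp hh hg ha.2 G hG hy⟩
    have hev : ∀ a : Fin (M + 1) → ℂ, MvPolynomial.eval a
        (MvPolynomial.bind₁ g (S * MvPolynomial.X j0)) =
        MvPolynomial.eval (fun i => MvPolynomial.eval a (g i)) (S * MvPolynomial.X j0) := by
      intro a
      have h4 := hval (E := ℂ) a
      rw [val_cx, val_cx] at h4
      simp only [val_cx] at h4
      exact h4
    rw [hev, hev] at hR
    obtain ⟨ε, hε, hl⟩ := hS'.kobayashi _ _ (hpt a ha) (hpt b hb) hab hR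
    exact ⟨ε, hε, fun l hc => hl l (chain_comp hh hg hmor hc)⟩

end Pool.Agent.J6H55.MF
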