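import Pool.Agent.J6H55.MF.Pts

/-!
# The joint moduli fibration: main theorem
-/

set_option autoImplicit false

namespace Pool.Agent.J6H55.MF

open Polynomial Height
open Pool.Agent.W602.GT (IsForm val coords GeneralType)
open Pool.Agent.Q41.GT (Sg V num den)
open Pool.Agent.Q103.EC (prePer HypOff isForm_mul val_mul')
open Pool.Agent.Q103.RP (cfv lowVals IsPt LangOff algPts)

section

variable {k K : Type} [Field k] [Field K] [Algebra k K] {M N : ℕ} {x : Fin (M + 1) → K}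

theorem imgPts_sub [Algebra k ℂ] (R : MvPolynomial (Fin (M + 1)) ℂ)
    (S : MvPolynomial (Fin (M + 1)) k) (g : Fin (N + 1) → MvPolynomial (Fin (M + 1)) k) (D : ℕ)
    (T : ℝ) : imgPts k x (R * MvPolynomial.map (algebraMap k ℂ) S) g D T ⊆
      lowVals k x S MvPolynomial.X g D T := by
  rintro P ⟨L, i1, i2, i3, σ, a, hL, ha, haR, hht, rfl⟩
  refine ⟨L, i1, i2, i3, σ, a, hL, ha, ?_, ?_, rfl⟩
  · intro h0
    rw [map_mul] at haR
    apply right_ne_zero_of_mul haR
    have h1 : σ (val a S) = MvPolynomial.eval (fun i => σ (a i))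
        (MvPolynomial.map (algebraMap k ℂ) S) := by
      rw [MvPolynomial.eval_map, ← MvPolynomial.aeval_def]
      unfold val
      exact MvPolynomial.comp_aeval_apply (f := a) (φ := σ) S
    rw [← h1, h0, map_zero]
  · have h1 : (fun s => val a (MvPolynomial.X s : MvPolynomial (Fin (M + 1)) k)) = a := by
      funext s
      unfold val
      rw [MvPolynomial.aeval_X]
    rw [h1]
    exact hht

theorem imgPts_mul [Algebra k ℂ] (R S : MvPolynomial (Fin (M + 1)) ℂ)
    (g : Fin (N + 1) → MvPolynomial (Fin (M + 1)) k) (D : ℕ)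
    (T : ℝ) : imgPts k x (S * R) g D T ⊆ imgPts k x R g D T := by
  rintro P ⟨L, i1, i2, i3, σ, a, hL, ha, haR, hht, rfl⟩
  rw [map_mul] at haR
  exact ⟨L, i1, i2, i3, σ, a, hL, ha, right_ne_zero_of_mul haR, hht, rfl⟩

theorem algPts_eq [Algebra k ℂ] (R : MvPolynomial (Fin (M + 1)) ℂ) (D : ℕ) (T : ℝ) :
    algPts k x R (MvPolynomial.X : Fin (M + 1) → MvPolynomial (Fin (M + 1)) k) D T =
      imgPts k x R MvPolynomial.X D T := by
  unfold algPts imgPts val
  simp only [MvPolynomial.aeval_X]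

/-- every map has coefficient forms -/
theorem exists_coef (hx : x ≠ 0) (hgen : coords k x = ⊤) (d : ℕ) (p q : K[X]) :
    ∃ (κ : ℕ) (F : Fin 2 × Fin (d + 1) → MvPolynomial (Fin (M + 1)) k) (t : K),
      IsCoef x d p q κ F t := by
  classical
  obtain ⟨i1, hi1'⟩ := Function.ne_iff.1 hx
  have hi1 : x i1 ≠ 0 := hi1'
  have hu := Pool.Agent.TH466.QG.adjoin_norm hgen hi1
  obtain ⟨H0, hH0, hG⟩ := Pool.Agent.TH466.QG.exists_den hu
    (Set.finite_range (cfv d p q))
  have hG' : ∀ s, ∃ G : MvPolynomial (Fin (M + 1)) k,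
      cfv d p q s * MvPolynomial.aeval (fun i => x i / x i1) H0 =
        MvPolynomial.aeval (fun i => x i / x i1) G := fun s => hG _ ⟨s, rfl⟩
  choose G hGc using hG'
  set e := ∑ s, (G s).totalDegree with he
  have hle : ∀ s, (G s).totalDegree ≤ e := fun s =>
    Finset.single_le_sum (f := fun s => (G s).totalDegree) (fun _ _ => Nat.zero_le _)
      (Finset.mem_univ s)
  have h0 : x i1 ^ e * MvPolynomial.aeval (fun i => x i / x i1) H0 ≠ 0 :=
    mul_ne_zero (pow_ne_zero _ hi1) hH0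
  refine ⟨e, fun s => Pool.Agent.Q53.EC.hze i1 e (G s),
    (x i1 ^ e * MvPolynomial.aeval (fun i => x i / x i1) H0)⁻¹,
    fun s => Pool.Agent.Q53.EC.hze_hom i1 e _ (hle s), inv_ne_zero h0, fun s => ?_⟩
  rw [Pool.Agent.Q53.EC.val_hze e _ (hle s) hi1, ← hGc s]
  field_simp

/-- a larger closed subset -/
theorem relOff_mul {L : Type} [Field L] [Algebra ℂ L] {x : Fin (M + 1) → L}
    {g : Fin (N + 1) → MvPolynomial (Fin (M + 1)) ℂ} {R S : MvPolynomial (Fin (M + 1)) ℂ}
    (h : RelOff x g R) (hS : IsForm S) (hx : val x S ≠ 0) : RelOff x g (R * S) := by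
  refine ⟨isForm_mul h.form hS, ?_, ?_, ?_, ?_, ?_, ?_, ?_⟩
  · rw [val_mul']
    exact mul_ne_zero h.ne hx
  · intro E _ _ z hz hR
    rw [val_mul'] at hR
    exact h.dom E z hz (left_ne_zero_of_mul hR)
  · intro E _ _ v z hz hR hv htr
    rw [val_mul'] at hR
    exact h.sub E v z hz (left_ne_zero_of_mul hR) hv htr
  · rintro f hf ⟨t, ht⟩
    rw [map_mul] at ht
    exact h.curve f hf ⟨t, left_ne_zero_of_mul ht⟩
  · rintro m f hf ⟨t, ht⟩
    rw [map_mul] at ht
    exact h.mero m f hf ⟨t, left_ne_zero_of_mul ht⟩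
  · obtain ⟨A, hA⟩ := h.degree
    refine ⟨A, fun E _ _ _ f hf hR => ?_⟩
    rw [val_mul'] at hR
    exact hA E f hf (left_ne_zero_of_mul hR)
  · intro hmor a b ha hb hab hR
    refine h.kobayashi hmor a b ha hb hab ?_
    rcases hR with hR | hR
    · rw [map_mul] at hR
      exact Or.inl (left_ne_zero_of_mul hR)
    · rw [map_mul] at hR
      exact Or.inr (left_ne_zero_of_mul hR)

theorem langOff_of {L : Type} [Field L] [Algebra ℂ L] {x : Fin (M + 1) → L}
    {R : MvPolynomial (Fin (M + 1)) ℂ} (h : HypOff x R) : LangOff x R :=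
  ⟨h.form, h.ne, h.sub, h.curve, h.kobayashi⟩

/-- the whole variety is a model if `E = K` -/
theorem model_top (hx : x ≠ 0) (hgen : coords k x = ⊤) {E : IntermediateField k K} (hE : E = ⊤) :
    ∃ y : Fin (M + 1) → E, (∀ i, (y i : K) = x i) ∧ IsModel x 1 y MvPolynomial.X 1 := by
  subst hE
  refine ⟨fun i => ⟨x i, IntermediateField.mem_top⟩, fun i => rfl, ?_, ?_,
    fun i => MvPolynomial.isHomogeneous_X k i, one_ne_zero, fun i => ?_⟩
  · intro h0
    apply hx
    funext i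
    exact congrArg Subtype.val (congrFun h0 i)
  · unfold coords
    apply IntermediateField.lift_injective
    rw [IntermediateField.lift_adjoin, IntermediateField.lift_top]
    refine Eq.trans ?_ hgen
    unfold coords
    congr 1
    ext z
    constructor
    · rintro ⟨_, ⟨i, j, hj, rfl⟩, rfl⟩
      refine ⟨i, j, fun h0 => hj (Subtype.ext h0), rfl⟩
    · rintro ⟨i, j, hj, rfl⟩
      exact ⟨_, ⟨i, j, fun h0 => hj (congrArg Subtype.val h0), rfl⟩, rfl⟩
  · show MvPolynomial.aeval x (MvPolynomial.X i) = _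
    rw [MvPolynomial.aeval_X, one_mul]

end

/-- **Main theorem.** -/
theorem main : ∃ (B₀ : ℕ → ℕ) (B : ℕ → ℕ → ℝ → ℕ), ∀ (k : Type) [Field k] [NumberField k]
    [Algebra k ℂ] (K : Type) [Field K] [Algebra k K] (M : ℕ) (x : Fin (M + 1) → K), x ≠ 0 →
    coords k x = ⊤ → ∀ (J : Type) [Fintype J] (d n : J → ℕ) (p q : J → K[X]), (∀ j, 2 ≤ d j) →
    (∀ j, IsCoprime (p j) (q j)) → (∀ j, max (p j).natDegree (q j).natDegree = d j) →
    (∀ j, B₀ (d j) ≤ n j) → (∀ j, (n j : ℕ∞) ≤ (prePer (d j) (p j) (q j)).encard) →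
    ∃ E : IntermediateField k K, JointModuli d p q E ∧
      (∀ v : ℕ, 1 ≤ v → Algebra.trdeg k E = v → GeneralType k E v) ∧
      (∃ (N e : ℕ) (y : Fin (N + 1) → E) (g : Fin (N + 1) → MvPolynomial (Fin (M + 1)) k) (τ : K),
        IsModel x e y g τ) ∧
      (∀ j, ∃ (κ : ℕ) (F : Fin 2 × Fin (d j + 1) → MvPolynomial (Fin (M + 1)) k) (t : K),
        IsCoef x (d j) (p j) (q j) κ F t) ∧
      ∀ (L : Type) [Field L] [Algebra ℂ L] [Algebra K L] [Algebra k L] [IsScalarTower k K L]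
        [IsScalarTower k ℂ L], coords ℂ (fun i => algebraMap K L (x i)) = ⊤ →
      ∀ (κ : J → ℕ) (F : ∀ j, Fin 2 × Fin (d j + 1) → MvPolynomial (Fin (M + 1)) k) (t : J → K),
        (∀ j, IsCoef x (d j) (p j) (q j) (κ j) (F j) (t j)) →
      (∀ (N e : ℕ) (y : Fin (N + 1) → E) (g : Fin (N + 1) → MvPolynomial (Fin (M + 1)) k) (τ : K),
        IsModel x e y g τ →
        ∃ (S : MvPolynomial (Fin (N + 1)) ℂ) (R : MvPolynomial (Fin (M + 1)) ℂ),
          LangOff (fun i => algebraMap K L (y i)) S ∧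
          RelOff (fun i => algebraMap K L (x i))
            (fun i => MvPolynomial.map (algebraMap k ℂ) (g i)) R ∧
          ∀ (D : ℕ) (ε : ℝ), 0 < ε → (∀ j, B (d j) D ε ≤ n j) → ∃ C : ℝ, ∀ T : ℝ, 1 ≤ T →
            (imgPts k x R g D T).Finite ∧
              ((imgPts k x R g D T).ncard : ℝ) ≤ C * T ^ ((∑ j, κ j : ℕ) * ε)) ∧
      (Algebra.IsAlgebraic E K → ∃ R : MvPolynomial (Fin (M + 1)) ℂ,
        LangOff (fun i => algebraMap K L (x i)) R ∧
          ∀ (D : ℕ) (ε : ℝ), 0 < ε → (∀ j, B (d j) D ε ≤ n j) → ∃ C : ℝ, ∀ T : ℝ, 1 ≤ T →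
            (algPts k x R MvPolynomial.X D T).Finite ∧
              ((algPts k x R MvPolynomial.X D T).ncard : ℝ) ≤ C * T ^ ((∑ j, κ j : ℕ) * ε)) := by
  obtain ⟨B1, hB1⟩ := joint_main
  obtain ⟨B, hB⟩ := pts_joint
  refine ⟨fun d => max (3 * d + 7) (B1 d), B, ?_⟩
  intro k _ _ _ K _ _ M x hx hgen J _ d n p q hd hco hmax hn hmany
  have hn1 : ∀ j, 3 * d j + 7 ≤ n j := fun j => (le_max_left _ _).trans (hn j)
  have hmany1 : ∀ j, (B1 (d j) : ℕ∞) ≤ (prePer (d j) (p j) (q j)).encard := fun j =>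
    le_trans (by exact_mod_cast (le_max_right _ _).trans (hn j)) (hmany j)
  obtain ⟨E, hE, hgt, hmain⟩ := hB1 k K M x hx hgen J d p q hd hco hmax hmany1
  have hess := ess_sub hx hgen E
  refine ⟨E, hE, hgt, ?_, fun j => exists_coef hx hgen (d j) (p j) (q j), ?_⟩
  · obtain ⟨N, e, y, g, τ, h1, h2, h3, h4, h5⟩ := exists_model hx hgen E
    exact ⟨N, e, y, g, τ, h1, h2, h3, h4, h5⟩
  intro L _ _ _ _ _ _ _ κ F t hF
  have hfib : ∀ (N e : ℕ) (y : Fin (N + 1) → E) (g : Fin (N + 1) → MvPolynomial (Fin (M + 1)) k)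
      (τ : K), IsModel x e y g τ →
        ∃ (S : MvPolynomial (Fin (N + 1)) ℂ) (R : MvPolynomial (Fin (M + 1)) ℂ),
          HypOff (fun i => algebraMap K L (y i)) S ∧
          RelOff (fun i => algebraMap K L (x i))
            (fun i => MvPolynomial.map (algebraMap k ℂ) (g i)) R ∧
          ∀ (D : ℕ) (ε : ℝ), 0 < ε → (∀ j, B (d j) D ε ≤ n j) → ∃ C : ℝ, ∀ T : ℝ, 1 ≤ T →
            (imgPts k x R g D T).Finite ∧
              ((imgPts k x R g D T).ncard : ℝ) ≤ C * T ^ ((∑ j, κ j : ℕ) * ε) := by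
    intro N e y g τ hy
    obtain ⟨S, R, hS, hR⟩ := hmain N e y g τ hy.ne hy.gen hy.hom hy.ne' hy.val L
    obtain ⟨i0, hi0'⟩ := Function.ne_iff.1 hy.ne
    have hi0 : (y i0 : K) ≠ 0 := fun h0 => hi0' (Subtype.ext h0)
    have hg0 : val x (g i0) ≠ 0 := by
      rw [hy.val]
      exact mul_ne_zero hy.ne' hi0
    obtain ⟨R', hR', hR'x, hpts⟩ := hB k K M x hx hgen J d n p q hd hn1 hco hmax hmany E hE κ F t
      (fun j => (hF j).hom) (fun j => (hF j).ne) (fun j => (hF j).val) N e g i0 hy.hom hg0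
      (fun i => by
        rw [hy.val, hy.val, mul_div_mul_left _ _ hy.ne']
        exact div_mem (y i).2 (y i0).2)
    refine ⟨S, R * MvPolynomial.map (algebraMap k ℂ) R', hS, relOff_mul hR ?_ ?_, ?_⟩
    · obtain ⟨e, he⟩ := hR'
      exact ⟨e, he.map _⟩
    · have h2 : val (fun i => algebraMap K L (x i)) (MvPolynomial.map (algebraMap k ℂ) R') =
          algebraMap K L (val x R') := by
        unfold val
        rw [MvPolynomial.aeval_map_algebraMap]
        exact MvPolynomial.aeval_algebraMap_apply L x R'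
      rw [h2]
      intro h3
      exact hR'x ((map_eq_zero _).1 h3)
    · intro D ε hε hBD
      obtain ⟨C, hC⟩ := hpts D ε hε hBD
      refine ⟨C, fun T hT => ?_⟩
      obtain ⟨f1, c1⟩ := hC T hT
      have s1 := imgPts_sub (x := x) R R' g D T
      refine ⟨f1.subset s1, le_trans ?_ c1⟩
      exact_mod_cast Set.ncard_le_ncard s1 f1
  refine ⟨fun N e y g τ hy => ?_, fun halg => ?_⟩
  · obtain ⟨S, R, hS, hR, hpts⟩ := hfib N e y g τ hy
    exact ⟨S, R, langOff_of hS, hR, hpts⟩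
  · have hEtop : E = ⊤ := by
      rw [eq_top_iff]
      intro y _
      exact hE.closed y (halg.isAlgebraic y)
    obtain ⟨y, hyx, hy⟩ := model_top hx hgen hEtop
    obtain ⟨S, R, hS, hR, hpts⟩ := hfib M 1 y MvPolynomial.X 1 hy
    have h1 : (fun i => algebraMap K L (y i)) = fun i => algebraMap K L (x i) := by
      funext i
      rw [hyx]
    rw [h1] at hS
    refine ⟨S * R, langOff_of (hypOff_mul hS hR.form hR.ne), fun D ε hε hBD => ?_⟩
    obtain ⟨C, hC⟩ := hpts D ε hε hBD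
    refine ⟨C, fun T hT => ?_⟩
    obtain ⟨f1, c1⟩ := hC T hT
    have s1 := imgPts_mul (x := x) R S (MvPolynomial.X : Fin (M + 1) → MvPolynomial (Fin (M + 1)) k) D T
    rw [algPts_eq]
    refine ⟨f1.subset s1, le_trans ?_ c1⟩
    exact_mod_cast Set.ncard_le_ncard s1 f1

/-- **Subvarieties of products of the moduli spaces.** -/
theorem joint_top {k K : Type} [Field k] [CharZero k] [Field K] [Algebra k K] {J : Type}
    {d n : J → ℕ} (hd : ∀ j, 2 ≤ d j) (hn : ∀ j, 3 ≤ n j) {z : ∀ j, Sg (d j) → K}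
    (hz : ∀ j, z j ∈ V (d j) (n j) K)
    (hgen : Algebra.IsAlgebraic (IntermediateField.adjoin k (⋃ j, Set.range (z j))) K)
    {E : IntermediateField k K}
    (hE : JointModuli d (fun j => num (d j) (z j)) (fun j => den (d j) (z j)) E) : E = ⊤ := by
  rw [eq_top_iff]
  intro y _
  refine hE.closed y (Pool.Agent.J6H55.JM.elt_trans (S := ⋃ j, Set.range (z j)) ?_
    (hgen.isAlgebraic y))
  intro c hc
  obtain ⟨j, i, rfl⟩ := Set.mem_iUnion.1 hc
  have h1 := Pool.Agent.Q103.VR.rats_alg_of_normal (hd j) (hz j).1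
    (Pool.Agent.Q41.GT.max_natDegree _ (by have := hd j; omega))
    (fun w hw => Pool.Agent.Q41.GT.prep_points _ (by have := hd j; omega)
      (by have := hn j; omega) (hz j) w hw) (hE.defined j)
  apply h1
  have hd1 : 1 ≤ d j := by have := hd j; omega
  rcases i with i | i
  · refine ⟨num (d j) (z j), den (d j) (z j), Or.inl rfl, Or.inr rfl, i, d j, ?_⟩
    rw [Pool.Agent.Q41.GT.den_coeff_top _ hd1, Pool.Agent.Q41.GT.num_coeff _ i i.2, div_one]
  · refine ⟨den (d j) (z j), den (d j) (z j), Or.inr rfl, Or.inr rfl, i + 1, d j, ?_⟩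
    rw [Pool.Agent.Q41.GT.den_coeff_top _ hd1, Pool.Agent.Q41.GT.den_coeff _ i i.2, div_one]

end Pool.Agent.J6H55.MF
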